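import Pool.Agent.Lib.MP_743d1e_nt.LA.Spec

section
/-!
# LNL: the determinant of the regulator matrix
-/
set_option autoImplicit false

namespace MP743d1e.LA.LNLM

open scoped BigOperators Pointwise
open MeasureTheory MP743d1e.K2Main MP743d1e.W.LINW

/-! ### The determinant of an expanding matrix -/

theorem det_ge_gen {g : ℕ} {E : Type} [NormedAddCommGroup E] [NormedSpace ℝ E]
    (ψ : (Fin g → ℝ) →ₗ[ℝ] E) (hψ : ∀ v, ∑ i, v i ^ 2 ≤ ‖ψ v‖ ^ 2)
    (M : Matrix (Fin g) (Fin g) ℝ) {κ : ℝ} (hκ : 0 < κ)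
    (h : ∀ v : Fin g → ℝ, κ * ‖ψ v‖ ≤ ‖ψ (fun k => ∑ i, v i * M i k)‖) :
    κ ^ g ≤ |M.det| := by
  set A : (Fin g → ℝ) →ₗ[ℝ] (Fin g → ℝ) := Matrix.toLin' M.transpose with hA
  have hAv : ∀ v, A v = fun k => ∑ i, v i * M i k := by
    intro v
    funext k
    rw [hA, Matrix.toLin'_apply, Matrix.mulVec, dotProduct]
    apply Finset.sum_congr rfl
    intro i _
    rw [Matrix.transpose_apply, mul_comm]
  have hdet : LinearMap.det A = M.det := by
    rw [hA, LinearMap.det_toLin', Matrix.det_transpose]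
  have hcoord : ∀ (v : Fin g → ℝ) (i : Fin g), v i ^ 2 ≤ ‖ψ v‖ ^ 2 := fun v i =>
    (Finset.single_le_sum (f := fun i => v i ^ 2) (fun i _ => sq_nonneg _)
      (Finset.mem_univ i)).trans (hψ v)
  have hpsi0 : ∀ v : Fin g → ℝ, ‖ψ v‖ = 0 → v = 0 := by
    intro v hv
    funext i
    have h2 := hcoord v i
    rw [hv] at h2
    have h3 : v i ^ 2 ≤ 0 := by linarith
    exact pow_eq_zero_iff two_ne_zero |>.1 (le_antisymm h3 (sq_nonneg _))
  have hinj : Function.Injective A := by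
    rw [injective_iff_map_eq_zero]
    intro v hv
    have h1 := h v
    rw [← hAv, hv, map_zero, norm_zero] at h1
    refine hpsi0 v (le_antisymm ?_ (norm_nonneg _))
    by_contra h2
    push Not at h2
    nlinarith
  have hsurj : Function.Surjective A := LinearMap.injective_iff_surjective.1 hinj
  set B : Set (Fin g → ℝ) := {v | ‖ψ v‖ < 1} with hB
  have hcont : Continuous fun v : Fin g → ℝ => ‖ψ v‖ :=
    (LinearMap.continuous_of_finiteDimensional ψ).norm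
  have hopen : IsOpen B := isOpen_lt hcont continuous_const
  have h0 : (0 : Fin g → ℝ) ∈ B := by
    simp [hB]
  have hBsub : B ⊆ Metric.closedBall (0 : Fin g → ℝ) 1 := by
    intro v hv
    have hv' : ‖ψ v‖ < 1 := hv
    rw [mem_closedBall_zero_iff, pi_norm_le_iff_of_nonneg (by norm_num)]
    intro i
    have h2 := hcoord v i
    have h3 : ‖ψ v‖ ^ 2 ≤ 1 := by nlinarith [norm_nonneg (ψ v)]
    rw [Real.norm_eq_abs]
    refine abs_le_of_sq_le_sq (by linarith) (by norm_num)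
  have hsub : κ • B ⊆ A '' B := by
    rintro _ ⟨y, hy, rfl⟩
    obtain ⟨v, hv⟩ := hsurj (κ • y)
    refine ⟨v, ?_, hv⟩
    have h1 := h v
    rw [← hAv, hv, map_smul, norm_smul, Real.norm_of_nonneg hκ.le] at h1
    have h2 : ‖ψ v‖ ≤ ‖ψ y‖ := le_of_mul_le_mul_left h1 hκ
    exact lt_of_le_of_lt h2 hy
  have h1 : volume (κ • B) ≤ volume (A '' B) := measure_mono hsub
  rw [Measure.addHaar_image_linearMap, Measure.addHaar_smul, hdet, Module.finrank_fin_fun] at h1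
  have h2 : volume B ≠ 0 := (hopen.measure_pos volume ⟨0, h0⟩).ne'
  have h3 : volume B ≠ ⊤ :=
    ((measure_mono hBsub).trans_lt measure_closedBall_lt_top).ne
  rw [ENNReal.mul_le_mul_iff_left h2 h3] at h1
  have h4 := (ENNReal.ofReal_le_ofReal_iff (abs_nonneg _)).1 h1
  exact (le_abs_self _).trans h4

/-! ### Flows and their coordinates -/

variable {D : Arr}

/-- the coordinates of a flow -/
def co (a : Fin D.m → Fin D.n → ℝ) (b : Fin D.n → Fin D.n → ℝ) : Idx D → ℝ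
  | Sum.inl z => a z.1.1 z.1.2
  | Sum.inr z => b z.1.1 z.1.2

variable {a : Fin D.m → Fin D.n → ℝ} {b : Fin D.n → Fin D.n → ℝ}

theorem fb_co (hf : Flow D a b) (j l : Fin D.n) : fb (co a b) j l = b j l := by
  unfold fb vB
  by_cases hp : D.p j = D.p l
  · rw [dif_neg (fun h => h.2 hp), dif_neg (fun h => h.2 hp.symm), hf.par j l hp, sub_zero]
  · rcases lt_trichotomy j l with h | h | h
    · rw [dif_pos ⟨h, hp⟩, dif_neg (fun h' => lt_asymm h h'.1), sub_zero]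
      rfl
    · exact absurd (by rw [h]) hp
    · rw [dif_neg (fun h' => lt_asymm h h'.1), dif_pos ⟨h, Ne.symm hp⟩, zero_sub]
      show -(b l j) = b j l
      rw [hf.anti j l, neg_neg]

theorem i0_iff (i : Fin D.m) : i = i0 D ↔ i.val = 0 := by
  rw [Fin.ext_iff]
  rfl

theorem j0_iff (j : Fin D.n) : j = j0 D ↔ j.val = 0 := by
  rw [Fin.ext_iff]
  rfl

theorem vA_co (i : Fin D.m) (j : Fin D.n) :
    vA (co a b) i j = if i = i0 D ∨ j = j0 D then 0 else a i j := by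
  unfold vA
  by_cases h : i = i0 D ∨ j = j0 D
  · rw [if_pos h, dif_neg]
    rintro ⟨h1, h2⟩
    rcases h with h | h
    · exact h1 ((i0_iff i).1 h)
    · exact h2 ((j0_iff j).1 h)
  · rw [if_neg h, dif_pos]
    · rfl
    · push Not at h
      exact ⟨fun h' => h.1 ((i0_iff i).2 h'), fun h' => h.2 ((j0_iff j).2 h')⟩

theorem fa_co (hf : Flow D a b) (i : Fin D.m) (j : Fin D.n) : fa (co a b) i j = a i j := by
  have hrow : ∀ i, i ≠ i0 D → ∑ j', vA (co a b) i j' = -a i (j0 D) := by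
    intro i hi
    have h1 := hf.f1 i
    rw [← Finset.add_sum_erase _ _ (Finset.mem_univ (j0 D))] at h1 ⊢
    rw [vA_co, if_pos (Or.inr rfl), zero_add]
    have h2 : ∑ j' ∈ Finset.univ.erase (j0 D), vA (co a b) i j' =
        ∑ j' ∈ Finset.univ.erase (j0 D), a i j' := by
      refine Finset.sum_congr rfl fun j' hj' => ?_
      rw [vA_co, if_neg]
      rintro (h | h)
      · exact hi h
      · exact Finset.ne_of_mem_erase hj' h
    rw [h2]
    linarith
  have hrow0 : ∑ j', vA (co a b) (i0 D) j' = 0 :=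
    Finset.sum_eq_zero fun j' _ => by rw [vA_co, if_pos (Or.inl rfl)]
  have hcol : ∀ j, j ≠ j0 D → ∑ i', vA (co a b) i' j = -(∑ l, b j l) - a (i0 D) j := by
    intro j hj
    have h1 := hf.f2 j
    rw [← Finset.add_sum_erase _ (fun k => a k j) (Finset.mem_univ (i0 D))] at h1
    rw [← Finset.add_sum_erase _ _ (Finset.mem_univ (i0 D)), vA_co, if_pos (Or.inl rfl), zero_add]
    have h2 : ∑ i' ∈ Finset.univ.erase (i0 D), vA (co a b) i' j =
        ∑ i' ∈ Finset.univ.erase (i0 D), a i' j := by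
      refine Finset.sum_congr rfl fun i' hi' => ?_
      rw [vA_co, if_neg]
      rintro (h | h)
      · exact Finset.ne_of_mem_erase hi' h
      · exact hj h
    rw [h2]
    linarith
  have hcol0 : ∑ i', vA (co a b) i' (j0 D) = 0 :=
    Finset.sum_eq_zero fun i' _ => by rw [vA_co, if_pos (Or.inr rfl)]
  have htot : ∑ i', ∑ j', vA (co a b) i' j' = (∑ l, b (j0 D) l) + a (i0 D) (j0 D) := by
    rw [← Finset.add_sum_erase _ _ (Finset.mem_univ (i0 D)), hrow0, zero_add]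
    have h2 : ∑ i' ∈ Finset.univ.erase (i0 D), ∑ j', vA (co a b) i' j' =
        -∑ i' ∈ Finset.univ.erase (i0 D), a i' (j0 D) := by
      rw [← Finset.sum_neg_distrib]
      exact Finset.sum_congr rfl fun i' hi' => hrow i' (Finset.ne_of_mem_erase hi')
    have h1 := hf.f2 (j0 D)
    rw [← Finset.add_sum_erase _ (fun k => a k (j0 D)) (Finset.mem_univ (i0 D))] at h1
    rw [h2]
    linarith
  unfold fa
  simp only [fb_co hf]
  by_cases hi : i = i0 D
  · by_cases hj : j = j0 D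
    · rw [if_pos hj, if_pos hi, if_pos hj, hi, hj, hrow0, hcol0, htot, vA_co,
        if_pos (Or.inl rfl)]
      ring
    · rw [if_neg hj, if_pos hi, if_neg hj, hi, hcol j hj, vA_co, if_pos (Or.inl rfl)]
      ring
  · by_cases hj : j = j0 D
    · rw [if_pos hj, if_neg hi, hj, hrow i hi, vA_co, if_pos (Or.inr rfl)]
      ring
    · rw [if_neg hj, if_neg hi, vA_co, if_neg (by tauto)]
      ring

/-! ### The embedding -/

theorem vA_add (v w : Idx D → ℝ) (i : Fin D.m) (j : Fin D.n) :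
    vA (v + w) i j = vA v i j + vA w i j := by
  unfold vA
  split_ifs
  · rfl
  · ring

theorem vB_add (v w : Idx D → ℝ) (j l : Fin D.n) : vB (v + w) j l = vB v j l + vB w j l := by
  unfold vB
  split_ifs
  · rfl
  · ring

theorem vA_smul (c : ℝ) (v : Idx D → ℝ) (i : Fin D.m) (j : Fin D.n) :
    vA (c • v) i j = c * vA v i j := by
  unfold vA
  split_ifs
  · rfl
  · ring

theorem vB_smul (c : ℝ) (v : Idx D → ℝ) (j l : Fin D.n) : vB (c • v) j l = c * vB v j l := by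
  unfold vB
  split_ifs
  · rfl
  · ring

theorem fb_add (v w : Idx D → ℝ) (j l : Fin D.n) : fb (v + w) j l = fb v j l + fb w j l := by
  unfold fb
  rw [vB_add, vB_add]
  ring

theorem fb_smul (c : ℝ) (v : Idx D → ℝ) (j l : Fin D.n) : fb (c • v) j l = c * fb v j l := by
  unfold fb
  rw [vB_smul, vB_smul]
  ring

theorem fa_add (v w : Idx D → ℝ) (i : Fin D.m) (j : Fin D.n) :
    fa (v + w) i j = fa v i j + fa w i j := by
  unfold fa
  simp only [vA_add, fb_add, Finset.sum_add_distrib]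
  split_ifs <;> ring

theorem fa_smul (c : ℝ) (v : Idx D → ℝ) (i : Fin D.m) (j : Fin D.n) :
    fa (c • v) i j = c * fa v i j := by
  unfold fa
  simp only [vA_smul, fb_smul, ← Finset.mul_sum]
  split_ifs <;> ring

/-- the isometric embedding for `SS` -/
noncomputable def ps (D : Arr) :
    (Idx D → ℝ) →ₗ[ℝ] EuclideanSpace ℝ ((Fin D.m × Fin D.n) ⊕ (Fin D.n × Fin D.n)) where
  toFun v := WithLp.toLp 2 (Sum.elim (fun z => fa v z.1 z.2) fun z => fb v z.1 z.2 / Real.sqrt 2)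
  map_add' v w := by
    ext z
    rcases z with z | z
    · simp [fa_add]
    · simp [fb_add, add_div]
  map_smul' c v := by
    ext z
    rcases z with z | z
    · simp [fa_smul]
    · simp [fb_smul, mul_div_assoc]

theorem ps_inl (v : Idx D → ℝ) (z : Fin D.m × Fin D.n) :
    (ps D v) (Sum.inl z) = fa v z.1 z.2 := rfl

theorem ps_inr (v : Idx D → ℝ) (z : Fin D.n × Fin D.n) :
    (ps D v) (Sum.inr z) = fb v z.1 z.2 / Real.sqrt 2 := rfl

theorem inner_ps (v w : Idx D → ℝ) : inner ℝ (ps D v) (ps D w) =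
    ∑ k, ∑ j, fa v k j * fa w k j + (1 / 2) * ∑ j, ∑ l, fb v j l * fb w j l := by
  rw [PiLp.inner_apply, Fintype.sum_sum_type, Fintype.sum_prod_type, Fintype.sum_prod_type]
  congr 1
  · refine Finset.sum_congr rfl fun k _ => Finset.sum_congr rfl fun j _ => ?_
    rw [ps_inl, ps_inl]
    simp [mul_comm]
  · rw [Finset.mul_sum]
    refine Finset.sum_congr rfl fun k _ => ?_
    rw [Finset.mul_sum]
    refine Finset.sum_congr rfl fun j _ => ?_
    rw [ps_inr, ps_inr]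
    have h2 : Real.sqrt 2 * Real.sqrt 2 = 2 := Real.mul_self_sqrt (by norm_num)
    have h3 : Real.sqrt 2 ≠ 0 := by positivity
    have h4 : fb w k j / Real.sqrt 2 * (fb v k j / Real.sqrt 2) = 1 / 2 * (fb v k j * fb w k j) := by
      rw [div_mul_div_comm, h2]
      ring
    simpa using h4

theorem norm_ps_sq (v : Idx D → ℝ) : ‖ps D v‖ ^ 2 = SS D (fa v) (fb v) := by
  rw [← real_inner_self_eq_norm_sq, inner_ps]
  unfold SS
  simp only [sq]

/-! ### Bounds for the norm -/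

/-- the parts of the square sum of the coefficients -/
noncomputable def A2 (v : Idx D → ℝ) : ℝ := ∑ i, ∑ j, vA v i j ^ 2

noncomputable def B2 (v : Idx D → ℝ) : ℝ := ∑ j, ∑ l, vB v j l ^ 2

theorem sum_sq (v : Idx D → ℝ) : ∑ i, v i ^ 2 = A2 v + B2 v := by
  rw [Fintype.sum_sum_type]
  congr 1
  · have h1 := sum_subtype (fun z : Fin D.m × Fin D.n => z.1.val ≠ 0 ∧ z.2.val ≠ 0)
      (fun z => v (Sum.inl z)) (fun i j => vA v i j)
    have h2 : ∑ z : {z : Fin D.m × Fin D.n // z.1.val ≠ 0 ∧ z.2.val ≠ 0},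
        v (Sum.inl z) * vA v z.1.1 z.1.2 = ∑ z : {z : Fin D.m × Fin D.n // z.1.val ≠ 0 ∧
          z.2.val ≠ 0}, v (Sum.inl z) ^ 2 := by
      refine Finset.sum_congr rfl fun z _ => ?_
      have h3 : vA v z.1.1 z.1.2 = v (Sum.inl z) := by
        unfold vA
        rw [dif_pos z.2]
      rw [h3]
      ring
    rw [← h2, h1]
    unfold A2
    refine Finset.sum_congr rfl fun i _ => Finset.sum_congr rfl fun j _ => ?_
    rw [sq]
    rfl
  · have h1 := sum_subtype (fun z : Fin D.n × Fin D.n => z.1 < z.2 ∧ D.p z.1 ≠ D.p z.2)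
      (fun z => v (Sum.inr z)) (fun i j => vB v i j)
    have h2 : ∑ z : {z : Fin D.n × Fin D.n // z.1 < z.2 ∧ D.p z.1 ≠ D.p z.2},
        v (Sum.inr z) * vB v z.1.1 z.1.2 = ∑ z : {z : Fin D.n × Fin D.n // z.1 < z.2 ∧
          D.p z.1 ≠ D.p z.2}, v (Sum.inr z) ^ 2 := by
      refine Finset.sum_congr rfl fun z _ => ?_
      have h3 : vB v z.1.1 z.1.2 = v (Sum.inr z) := by
        unfold vB
        rw [dif_pos z.2]
      rw [h3]
      ring
    rw [← h2, h1]
    unfold B2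
    refine Finset.sum_congr rfl fun i _ => Finset.sum_congr rfl fun j _ => ?_
    rw [sq]
    rfl

theorem fb_sq (v : Idx D → ℝ) (j l : Fin D.n) : fb v j l ^ 2 = vB v j l ^ 2 + vB v l j ^ 2 := by
  have h1 : vB v j l * vB v l j = 0 := by
    unfold vB
    by_cases h : (j, l).1 < (j, l).2 ∧ D.p (j, l).1 ≠ D.p (j, l).2
    · rw [dif_neg (fun h' : (l, j).1 < (l, j).2 ∧ D.p (l, j).1 ≠ D.p (l, j).2 =>
        lt_asymm h.1 h'.1), mul_zero]
    · rw [dif_neg h, zero_mul]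
  unfold fb
  linear_combination (-2) * h1

theorem sum_fb_sq (v : Idx D → ℝ) : ∑ j, ∑ l, fb v j l ^ 2 = 2 * B2 v := by
  simp only [fb_sq, Finset.sum_add_distrib]
  have h1 : ∑ j, ∑ l, vB v l j ^ 2 = B2 v := by
    unfold B2
    rw [Finset.sum_comm]
  rw [h1]
  unfold B2
  ring

theorem vA_zero (v : Idx D → ℝ) {i : Fin D.m} {j : Fin D.n} (h : i = i0 D ∨ j = j0 D) :
    vA v i j = 0 := by
  unfold vA
  rw [dif_neg]
  rintro ⟨h1, h2⟩
  rcases h with h | h
  · exact h1 ((i0_iff i).1 h)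
  · exact h2 ((j0_iff j).1 h)

theorem fa_inner (v : Idx D → ℝ) {i : Fin D.m} {j : Fin D.n} (hi : i ≠ i0 D) (hj : j ≠ j0 D) :
    fa v i j = vA v i j := by
  unfold fa
  rw [if_neg hj, if_neg hi]
  ring

theorem sum_sq_le (v : Idx D → ℝ) : ∑ i, v i ^ 2 ≤ ‖ps D v‖ ^ 2 := by
  rw [norm_ps_sq, sum_sq]
  unfold SS
  rw [sum_fb_sq]
  have h1 : A2 v ≤ ∑ k, ∑ j, fa v k j ^ 2 := by
    unfold A2
    refine Finset.sum_le_sum fun i _ => Finset.sum_le_sum fun j _ => ?_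
    by_cases h : i = i0 D ∨ j = j0 D
    · rw [vA_zero v h]
      simp [sq_nonneg]
    · push Not at h
      rw [fa_inner v h.1 h.2]
  linarith

theorem sq_add_le {x y p q X Y : ℝ} (hp : 0 ≤ p) (hq : 0 ≤ q) (hX : 0 ≤ X) (hY : 0 ≤ Y)
    (h1 : x ^ 2 ≤ p * X) (h2 : y ^ 2 ≤ q * Y) : (x + y) ^ 2 ≤ (p + q) * (X + Y) := by
  have h3 : (x * y) ^ 2 ≤ ((p * Y + q * X) / 2) ^ 2 := by
    calc (x * y) ^ 2 = x ^ 2 * y ^ 2 := by ring
      _ ≤ (p * X) * (q * Y) := mul_le_mul h1 h2 (sq_nonneg _) (by positivity)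
      _ ≤ ((p * Y + q * X) / 2) ^ 2 := by nlinarith [sq_nonneg (p * Y - q * X)]
  have h4 : x * y ≤ (p * Y + q * X) / 2 :=
    le_of_abs_le (abs_le_of_sq_le_sq h3 (by positivity))
  nlinarith

theorem norm_ps_le (v : Idx D → ℝ) :
    ‖ps D v‖ ^ 2 ≤ ((D.m : ℝ) + D.n) ^ 2 * ∑ i, v i ^ 2 := by
  have hm : (1 : ℝ) ≤ D.m := by exact_mod_cast D.hm
  have hn : (2 : ℝ) ≤ D.n := by exact_mod_cast D.hn
  have hcm : ((Finset.univ.erase (i0 D)).card : ℝ) = D.m - 1 := by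
    rw [Finset.card_erase_of_mem (Finset.mem_univ _), Finset.card_univ, Fintype.card_fin,
      Nat.cast_sub D.hm, Nat.cast_one]
  have hcn : ∀ j : Fin D.n, ((Finset.univ.erase j).card : ℝ) = D.n - 1 := by
    intro j
    rw [Finset.card_erase_of_mem (Finset.mem_univ _), Finset.card_univ, Fintype.card_fin,
      Nat.cast_sub (by have := D.hn; omega), Nat.cast_one]
  have hA0 : 0 ≤ A2 v := Finset.sum_nonneg fun _ _ => Finset.sum_nonneg fun _ _ => sq_nonneg _
  have hB0 : 0 ≤ B2 v := Finset.sum_nonneg fun _ _ => Finset.sum_nonneg fun _ _ => sq_nonneg _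
  -- row sums
  have hrow : ∀ i, (∑ j, vA v i j) ^ 2 ≤ ((D.n : ℝ) - 1) * ∑ j, vA v i j ^ 2 := by
    intro i
    have h1 : ∑ j, vA v i j = ∑ j ∈ Finset.univ.erase (j0 D), vA v i j := by
      rw [← Finset.add_sum_erase _ _ (Finset.mem_univ (j0 D)), vA_zero v (Or.inr rfl), zero_add]
    have h2 : ∑ j ∈ Finset.univ.erase (j0 D), vA v i j ^ 2 ≤ ∑ j, vA v i j ^ 2 :=
      Finset.sum_le_univ_sum_of_nonneg fun _ => sq_nonneg _
    rw [h1]
    have h3 := sq_sum_le_card_mul_sum_sq (s := Finset.univ.erase (j0 D)) (f := fun j => vA v i j)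
    rw [hcn] at h3
    exact h3.trans (mul_le_mul_of_nonneg_left h2 (by linarith))
  have hcol : ∀ j, (∑ i, vA v i j) ^ 2 ≤ ((D.m : ℝ) - 1) * ∑ i, vA v i j ^ 2 := by
    intro j
    have h1 : ∑ i, vA v i j = ∑ i ∈ Finset.univ.erase (i0 D), vA v i j := by
      rw [← Finset.add_sum_erase _ _ (Finset.mem_univ (i0 D)), vA_zero v (Or.inl rfl), zero_add]
    have h2 : ∑ i ∈ Finset.univ.erase (i0 D), vA v i j ^ 2 ≤ ∑ i, vA v i j ^ 2 :=
      Finset.sum_le_univ_sum_of_nonneg fun _ => sq_nonneg _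
    rw [h1]
    have h3 := sq_sum_le_card_mul_sum_sq (s := Finset.univ.erase (i0 D)) (f := fun i => vA v i j)
    rw [hcm] at h3
    exact h3.trans (mul_le_mul_of_nonneg_left h2 (by linarith))
  have hfb : ∀ j, (∑ l, fb v j l) ^ 2 ≤ ((D.n : ℝ) - 1) * ∑ l, fb v j l ^ 2 := by
    intro j
    have h1 : ∑ l, fb v j l = ∑ l ∈ Finset.univ.erase j, fb v j l := by
      rw [← Finset.add_sum_erase _ _ (Finset.mem_univ j), fb_par v j j rfl, zero_add]
    have h2 : ∑ l ∈ Finset.univ.erase j, fb v j l ^ 2 ≤ ∑ l, fb v j l ^ 2 :=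
      Finset.sum_le_univ_sum_of_nonneg fun _ => sq_nonneg _
    rw [h1]
    have h3 := sq_sum_le_card_mul_sum_sq (s := Finset.univ.erase j) (f := fun l => fb v j l)
    rw [hcn] at h3
    exact h3.trans (mul_le_mul_of_nonneg_left h2 (by linarith))
  have htot : (∑ i, ∑ j, vA v i j) ^ 2 ≤ (((D.m : ℝ) - 1) * ((D.n : ℝ) - 1)) * A2 v := by
    have h1 : ∑ i, ∑ j, vA v i j = ∑ i ∈ Finset.univ.erase (i0 D), ∑ j, vA v i j := by
      rw [← Finset.add_sum_erase _ _ (Finset.mem_univ (i0 D))]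
      have h0 : ∑ j, vA v (i0 D) j = 0 := Finset.sum_eq_zero fun j _ => vA_zero v (Or.inl rfl)
      rw [h0, zero_add]
    have h2 : ∑ i ∈ Finset.univ.erase (i0 D), (∑ j, vA v i j) ^ 2 ≤
        ∑ i, ((D.n : ℝ) - 1) * ∑ j, vA v i j ^ 2 :=
      (Finset.sum_le_univ_sum_of_nonneg fun _ => sq_nonneg _).trans
        (Finset.sum_le_sum fun i _ => hrow i)
    rw [h1]
    have h3 := sq_sum_le_card_mul_sum_sq (s := Finset.univ.erase (i0 D))
      (f := fun i => ∑ j, vA v i j)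
    rw [hcm] at h3
    refine h3.trans ?_
    rw [← Finset.mul_sum] at h2
    unfold A2
    calc ((D.m : ℝ) - 1) * ∑ i ∈ Finset.univ.erase (i0 D), (∑ j, vA v i j) ^ 2
        ≤ ((D.m : ℝ) - 1) * (((D.n : ℝ) - 1) * ∑ i, ∑ j, vA v i j ^ 2) :=
          mul_le_mul_of_nonneg_left h2 (by linarith)
      _ = _ := by ring
  -- the row `j0` of `fb`
  have hj0 : ∑ l, fb v (j0 D) l ^ 2 ≤ B2 v := by
    have h1 : ∑ l, fb v (j0 D) l ^ 2 = ∑ l, vB v (j0 D) l ^ 2 + ∑ l, vB v l (j0 D) ^ 2 := by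
      simp only [fb_sq, Finset.sum_add_distrib]
    have h2 : B2 v = ∑ l, vB v (j0 D) l ^ 2 + ∑ j ∈ Finset.univ.erase (j0 D), ∑ l, vB v j l ^ 2 := by
      unfold B2
      rw [← Finset.add_sum_erase _ _ (Finset.mem_univ (j0 D))]
    have h3 : ∑ l, vB v l (j0 D) ^ 2 ≤ ∑ j ∈ Finset.univ.erase (j0 D), ∑ l, vB v j l ^ 2 := by
      rw [← Finset.add_sum_erase _ _ (Finset.mem_univ (j0 D))]
      have h4 : vB v (j0 D) (j0 D) = 0 := vB_par v _ _ rfl
      rw [h4]
      have h5 : ∑ j ∈ Finset.univ.erase (j0 D), vB v j (j0 D) ^ 2 ≤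
          ∑ j ∈ Finset.univ.erase (j0 D), ∑ l, vB v j l ^ 2 :=
        Finset.sum_le_sum fun j _ => Finset.single_le_sum (f := fun l => vB v j l ^ 2)
          (fun _ _ => sq_nonneg _) (Finset.mem_univ _)
      linarith
    rw [h1, h2]
    linarith
  -- the entries
  have e1 : ∀ i, i ≠ i0 D → ∑ j, fa v i j ^ 2 ≤ D.n * ∑ j, vA v i j ^ 2 := by
    intro i hi
    rw [← Finset.add_sum_erase _ _ (Finset.mem_univ (j0 D))]
    have h1 : fa v i (j0 D) = -∑ j, vA v i j := by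
      unfold fa
      rw [if_pos rfl, if_neg hi, vA_zero v (Or.inr rfl)]
      ring
    have h2 : ∑ j ∈ Finset.univ.erase (j0 D), fa v i j ^ 2 ≤ ∑ j, vA v i j ^ 2 := by
      have h3 : ∑ j ∈ Finset.univ.erase (j0 D), fa v i j ^ 2 =
          ∑ j ∈ Finset.univ.erase (j0 D), vA v i j ^ 2 :=
        Finset.sum_congr rfl fun j hj => by rw [fa_inner v hi (Finset.ne_of_mem_erase hj)]
      rw [h3]
      exact Finset.sum_le_univ_sum_of_nonneg fun _ => sq_nonneg _
    rw [h1, neg_sq]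
    have h4 := hrow i
    linarith
  have e2 : ∀ j, j ≠ j0 D → fa v (i0 D) j ^ 2 ≤
      ((D.m : ℝ) + D.n - 2) * (∑ i, vA v i j ^ 2 + ∑ l, fb v j l ^ 2) := by
    intro j hj
    have h1 : fa v (i0 D) j = -(∑ i, vA v i j + ∑ l, fb v j l) := by
      unfold fa
      rw [if_neg hj, if_pos rfl, if_neg hj, vA_zero v (Or.inl rfl)]
      ring
    rw [h1, neg_sq]
    refine (sq_add_le (by linarith) (by linarith)
      (Finset.sum_nonneg fun _ _ => sq_nonneg _) (Finset.sum_nonneg fun _ _ => sq_nonneg _)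
      (hcol j) (hfb j)).trans (le_of_eq ?_)
    ring
  have e3 : fa v (i0 D) (j0 D) ^ 2 ≤ (D.m * ((D.n : ℝ) - 1)) * (A2 v + B2 v) := by
    have h1 : fa v (i0 D) (j0 D) = (∑ i, ∑ j, vA v i j) + -∑ l, fb v (j0 D) l := by
      have h2 : ∑ j, vA v (i0 D) j = 0 := Finset.sum_eq_zero fun j _ => vA_zero v (Or.inl rfl)
      have h3 : ∑ i, vA v i (j0 D) = 0 := Finset.sum_eq_zero fun i _ => vA_zero v (Or.inr rfl)
      unfold fa
      rw [if_pos rfl, if_pos rfl, if_pos rfl, h2, h3, vA_zero v (Or.inl rfl)]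
      ring
    rw [h1]
    have h4 : (-∑ l, fb v (j0 D) l) ^ 2 ≤ ((D.n : ℝ) - 1) * B2 v := by
      rw [neg_sq]
      exact (hfb (j0 D)).trans (mul_le_mul_of_nonneg_left hj0 (by linarith))
    refine (sq_add_le (mul_nonneg (by linarith) (by linarith)) (by linarith) hA0 hB0
      htot h4).trans (le_of_eq ?_)
    ring
  -- the sum
  rw [norm_ps_sq, sum_sq]
  unfold SS
  rw [sum_fb_sq, ← Finset.add_sum_erase _ _ (Finset.mem_univ (i0 D)),
    ← Finset.add_sum_erase _ _ (Finset.mem_univ (j0 D))]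
  have s1 : ∑ i ∈ Finset.univ.erase (i0 D), ∑ j, fa v i j ^ 2 ≤ D.n * A2 v := by
    refine (Finset.sum_le_sum fun i hi => e1 i (Finset.ne_of_mem_erase hi)).trans ?_
    rw [← Finset.mul_sum]
    refine mul_le_mul_of_nonneg_left ?_ (by positivity)
    unfold A2
    exact Finset.sum_le_univ_sum_of_nonneg fun _ => Finset.sum_nonneg fun _ _ => sq_nonneg _
  have s2 : ∑ j ∈ Finset.univ.erase (j0 D), fa v (i0 D) j ^ 2 ≤
      ((D.m : ℝ) + D.n - 2) * (A2 v + 2 * B2 v) := by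
    refine (Finset.sum_le_sum fun j hj => e2 j (Finset.ne_of_mem_erase hj)).trans ?_
    rw [← Finset.mul_sum]
    refine mul_le_mul_of_nonneg_left ?_ (by linarith)
    rw [Finset.sum_add_distrib, ← sum_fb_sq v]
    have h1 : ∑ j ∈ Finset.univ.erase (j0 D), ∑ i, vA v i j ^ 2 ≤ A2 v := by
      unfold A2
      rw [Finset.sum_comm (s := Finset.univ) (t := Finset.univ)]
      exact Finset.sum_le_univ_sum_of_nonneg fun _ => Finset.sum_nonneg fun _ _ => sq_nonneg _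
    have h2 : ∑ j ∈ Finset.univ.erase (j0 D), ∑ l, fb v j l ^ 2 ≤ ∑ j, ∑ l, fb v j l ^ 2 :=
      Finset.sum_le_univ_sum_of_nonneg fun _ => Finset.sum_nonneg fun _ _ => sq_nonneg _
    linarith
  have s3 : fa v (i0 D) (j0 D) ^ 2 + ∑ j ∈ Finset.univ.erase (j0 D), fa v (i0 D) j ^ 2 +
      ∑ i ∈ Finset.univ.erase (i0 D), ∑ j, fa v i j ^ 2 + 1 / 2 * (2 * B2 v) ≤
      (D.m * ((D.n : ℝ) - 1) + ((D.m : ℝ) + D.n - 2) + D.n) * A2 v +
        (D.m * ((D.n : ℝ) - 1) + 2 * ((D.m : ℝ) + D.n - 2) + 1) * B2 v := by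
    linarith
  refine s3.trans ?_
  rw [mul_add]
  refine add_le_add (mul_le_mul_of_nonneg_right ?_ hA0) (mul_le_mul_of_nonneg_right ?_ hB0)
  · nlinarith
  · nlinarith

/-! ### The regulator matrix of the model expands the norm -/

theorem expand (hMDL : SpecMDL) (hENL : SpecENL) (L0 ℓ : ℝ)
    (hℓ : ∀ j c, Node D j c → ℓ ≤ W.Lam D 1 L0 j c) (v : Idx D → ℝ) :
    (ℓ - 2 * Real.log 2) * ‖ps D v‖ ≤ ‖ps D (fun k => ∑ i, v i * mod D 1 L0 i k)‖ := by
  have hf : Flow D (fa v) (fb v) := ⟨fb_anti v, fb_par v, f1 v, f2 v⟩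
  have hF := (hMDL D L0 _ _ hf).1
  have hw : (fun k => ∑ i, v i * mod D 1 L0 i k) =
      co (VA D L0 (fa v) (fb v)) (VB D L0 (fa v) (fb v)) := by
    funext k
    have h1 : ∑ i, v i * mod D 1 L0 i k =
        W.MODW.val D 1 L0 (fa v) (fb v) (l1 D k) (ctr D k) := by
      unfold W.MODW.val mod
      exact sum_idx v (W.Phi D 1 L0 (l1 D k) (ctr D k))
    rw [h1]
    rcases k with z | z
    · rfl
    · show W.MODW.val D 1 L0 (fa v) (fb v) z.1.1 (D.r z.1.1 z.1.2) =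
        VB D L0 (fa v) (fb v) z.1.1 z.1.2
      unfold VB
      rw [if_neg z.2.2]
  rw [hw]
  have h2 := hENL D L0 ℓ _ _ hf hℓ
  have h3 := real_inner_le_norm (ps D v) (ps D (co (VA D L0 (fa v) (fb v)) (VB D L0 (fa v) (fb v))))
  rw [inner_ps] at h3
  simp only [fa_co hF, fb_co hF] at h3
  rw [← norm_ps_sq] at h2
  set P := ‖ps D v‖ with hP
  set Q := ‖ps D (co (VA D L0 (fa v) (fb v)) (VB D L0 (fa v) (fb v)))‖ with hQ
  have hP0 : 0 ≤ P := norm_nonneg _
  have hQ0 : 0 ≤ Q := norm_nonneg _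
  rcases hP0.eq_or_lt with h | h
  · rw [← h, mul_zero]
    exact hQ0
  · have h4 : ((ℓ - 2 * Real.log 2) * P) * P ≤ Q * P := by
      calc ((ℓ - 2 * Real.log 2) * P) * P = (ℓ - 2 * Real.log 2) * P ^ 2 := by ring
        _ ≤ P * Q := h2.trans h3
        _ = Q * P := mul_comm _ _
    exact le_of_mul_le_mul_right h4 h

theorem error (E : Idx D → Idx D → ℝ) {η : ℝ} (hη : 0 ≤ η) (hE : ∀ i k, |E i k| ≤ η)
    (v : Idx D → ℝ) :
    ‖ps D (fun k => ∑ i, v i * E i k)‖ ≤ ((D.m : ℝ) + D.n) * D.g * η * ‖ps D v‖ := by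
  have hcard : (Fintype.card (Idx D) : ℝ) = D.g := by
    rw [card_idx]
  have h1 : ∀ k, (∑ i, v i * E i k) ^ 2 ≤ η ^ 2 * (D.g * ‖ps D v‖ ^ 2) := by
    intro k
    have h2 : (∑ i, v i * E i k) ^ 2 ≤ (∑ i, v i ^ 2) * ∑ i, E i k ^ 2 :=
      Finset.sum_mul_sq_le_sq_mul_sq _ _ _
    have h3 : ∑ i, E i k ^ 2 ≤ D.g * η ^ 2 := by
      have h4 : ∀ i ∈ (Finset.univ : Finset (Idx D)), E i k ^ 2 ≤ η ^ 2 := by
        intro i _
        exact sq_le_sq' (by linarith [(abs_le.1 (hE i k)).1]) (abs_le.1 (hE i k)).2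
      refine (Finset.sum_le_sum h4).trans ?_
      rw [Finset.sum_const, nsmul_eq_mul, Finset.card_univ, hcard]
    have h5 := sum_sq_le v
    calc (∑ i, v i * E i k) ^ 2 ≤ (∑ i, v i ^ 2) * ∑ i, E i k ^ 2 := h2
      _ ≤ ‖ps D v‖ ^ 2 * (D.g * η ^ 2) := mul_le_mul h5 h3
          (Finset.sum_nonneg fun _ _ => sq_nonneg _) (sq_nonneg _)
      _ = _ := by ring
  have h6 := norm_ps_le (fun k => ∑ i, v i * E i k)
  have h7 : ∑ k, (∑ i, v i * E i k) ^ 2 ≤ D.g * (η ^ 2 * (D.g * ‖ps D v‖ ^ 2)) := by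
    refine (Finset.sum_le_sum fun k _ => h1 k).trans ?_
    rw [Finset.sum_const, nsmul_eq_mul, Finset.card_univ, hcard]
  have h8 : ‖ps D (fun k => ∑ i, v i * E i k)‖ ^ 2 ≤
      (((D.m : ℝ) + D.n) * D.g * η * ‖ps D v‖) ^ 2 := by
    refine h6.trans ((mul_le_mul_of_nonneg_left h7 (sq_nonneg _)).trans (le_of_eq ?_))
    ring
  exact le_of_abs_le (abs_le_of_sq_le_sq h8 (by positivity))

theorem specLNL (hMDL : SpecMDL) (hENL : SpecENL) : SpecLNL := by
  intro D L0 ℓ hℓ e N η hN hκ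
  rcases Nat.eq_zero_or_pos D.g with h0 | h0
  · have : IsEmpty (Fin D.g) := by
      rw [h0]
      infer_instance
    rw [Matrix.det_isEmpty]
    have h1 : ∀ x : ℝ, x ^ D.g = 1 := fun x => by rw [h0, pow_zero]
    rw [h1, abs_one]
  have hη : 0 ≤ η := (abs_nonneg _).trans (hN ⟨0, h0⟩ ⟨0, h0⟩)
  set ψ : (Fin D.g → ℝ) →ₗ[ℝ] EuclideanSpace ℝ ((Fin D.m × Fin D.n) ⊕ (Fin D.n × Fin D.n)) :=
    (ps D) ∘ₗ (LinearMap.funLeft ℝ ℝ e.symm) with hψ
  have hψv : ∀ v, ψ v = ps D (fun k => v (e.symm k)) := fun v => rfl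
  refine det_ge_gen ψ ?_ N hκ ?_
  · intro v
    rw [hψv]
    refine le_trans (le_of_eq ?_) (sum_sq_le _)
    exact (Equiv.sum_comp e.symm fun i => v i ^ 2).symm
  · intro v
    rw [hψv, hψv]
    set u : Idx D → ℝ := fun k => v (e.symm k) with hu
    set E : Idx D → Idx D → ℝ := fun i k => N (e.symm i) (e.symm k) -
      2 * Real.pi * mod D 1 L0 i k with hEdef
    have hE : ∀ i k, |E i k| ≤ η := by
      intro i k
      have h1 := hN (e.symm i) (e.symm k)
      rw [e.apply_symm_apply, e.apply_symm_apply] at h1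
      exact h1
    have h1 : (fun k : Idx D => ∑ i, v i * N i (e.symm k)) =
        (2 * Real.pi) • (fun k => ∑ i, u i * mod D 1 L0 i k) + fun k => ∑ i, u i * E i k := by
      funext k
      have h2 : ∑ i, v i * N i (e.symm k) = ∑ i, u i * N (e.symm i) (e.symm k) :=
        (Equiv.sum_comp e.symm fun i => v i * N i (e.symm k)).symm
      rw [h2]
      show _ = 2 * Real.pi * (∑ i, u i * mod D 1 L0 i k) + ∑ i, u i * E i k
      rw [Finset.mul_sum, ← Finset.sum_add_distrib]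
      refine Finset.sum_congr rfl fun i _ => ?_
      rw [hEdef]
      ring
    rw [h1, map_add, map_smul]
    have h3 := expand hMDL hENL L0 ℓ hℓ u
    have h4 := error E hη hE u
    have hpi : 0 < 2 * Real.pi := by positivity
    have h5 : ‖(2 * Real.pi) • ps D (fun k => ∑ i, u i * mod D 1 L0 i k)‖ =
        2 * Real.pi * ‖ps D (fun k => ∑ i, u i * mod D 1 L0 i k)‖ := by
      rw [norm_smul, Real.norm_of_nonneg hpi.le]
    have h6 := norm_sub_le_norm_add
      ((2 * Real.pi) • ps D (fun k => ∑ i, u i * mod D 1 L0 i k))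
      (ps D (fun k => ∑ i, u i * E i k))
    rw [h5] at h6
    have h7 := mul_le_mul_of_nonneg_left h3 hpi.le
    have h8 : (2 * Real.pi * (ℓ - 2 * Real.log 2) - ((D.m : ℝ) + D.n) * D.g * η) * ‖ps D u‖ =
        2 * Real.pi * ((ℓ - 2 * Real.log 2) * ‖ps D u‖) -
          ((D.m : ℝ) + D.n) * D.g * η * ‖ps D u‖ := by ring
    rw [h8]
    linarith

end MP743d1e.LA.LNLM
end

section
/-!
# LA/Main: the final deduction for all arrangements under local conditions
-/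
set_option autoImplicit false

namespace MP743d1e.LA

open scoped BigOperators
open MP743d1e.K2Main

namespace MainM

theorem two_crossings (D : Arr) : 2 * D.crossings ≤ D.n * D.n := by
  unfold Arr.crossings
  set S := (Finset.univ : Finset (Fin D.n × Fin D.n)).filter (fun z => z.1 < z.2) with hS
  set T := (Finset.univ : Finset (Fin D.n × Fin D.n)).filter (fun z => z.2 < z.1) with hT
  have h1 : ((Finset.univ : Finset (Fin D.n × Fin D.n)).filter
      (fun z => z.1 < z.2 ∧ D.p z.1 ≠ D.p z.2)).card ≤ S.card := by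
    apply Finset.card_le_card
    intro z hz
    rw [Finset.mem_filter] at hz
    rw [hS, Finset.mem_filter]
    exact ⟨hz.1, hz.2.1⟩
  have h2 : S.card = T.card := by
    apply Finset.card_bij (fun z _ => (z.2, z.1))
    · intro z hz
      rw [hS, Finset.mem_filter] at hz
      rw [hT, Finset.mem_filter]
      exact ⟨Finset.mem_univ _, hz.2⟩
    · rintro ⟨a, b⟩ _ ⟨c, d⟩ _ h
      simp only [Prod.mk.injEq] at h
      rw [h.1, h.2]
    · rintro ⟨a, b⟩ hz
      rw [hT, Finset.mem_filter] at hz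
      exact ⟨(b, a), by rw [hS, Finset.mem_filter]; exact ⟨Finset.mem_univ _, hz.2⟩, rfl⟩
  have h3 : Disjoint S T := by
    rw [Finset.disjoint_left]
    intro z h4 h5
    rw [hS, Finset.mem_filter] at h4
    rw [hT, Finset.mem_filter] at h5
    exact lt_asymm h4.2 h5.2
  have h4 := Finset.card_le_univ (S ∪ T)
  rw [Finset.card_union_of_disjoint h3, Fintype.card_prod, Fintype.card_fin] at h4
  omega

theorem two_g (D : Arr) : 2 * (D.g : ℝ) ≤ ((D.m : ℝ) + D.n) ^ 2 := by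
  have h1 := two_crossings D
  have h2 : 2 * D.g ≤ 2 * (D.m * D.n) + D.n * D.n := by
    unfold Arr.g
    have h3 : (D.m - 1) * (D.n - 1) ≤ D.m * D.n := Nat.mul_le_mul (Nat.sub_le _ _) (Nat.sub_le _ _)
    omega
  have h3 : 2 * (D.g : ℝ) ≤ 2 * ((D.m : ℝ) * D.n) + D.n * D.n := by exact_mod_cast h2
  nlinarith [sq_nonneg (D.m : ℝ)]

theorem s_ge (D : Arr) : (3 : ℝ) ≤ (D.m : ℝ) + D.n := by
  have h1 : (1 : ℝ) ≤ D.m := by exact_mod_cast D.hm
  have h2 : (2 : ℝ) ≤ D.n := by exact_mod_cast D.hn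
  linarith

theorem C_ge (D : Arr) : 162 ≤ 2 * ((D.m : ℝ) + D.n) ^ 4 := by
  have h1 := s_ge D
  have h2 : (3 : ℝ) ^ 4 ≤ ((D.m : ℝ) + D.n) ^ 4 := pow_le_pow_left₀ (by norm_num) h1 4
  linarith

/-- the error term is at most `17` -/
theorem err_le (D : Arr) {Λ : ℝ} (hΛ : 2 * ((D.m : ℝ) + D.n) ^ 4 ≤ Λ) :
    ((D.m : ℝ) + D.n) * D.g * (68 * D.n / Λ) ≤ 17 := by
  have hC := C_ge D
  have hpos : 0 < Λ := by linarith
  have hs := s_ge D
  have hg := two_g D
  have hm0 : (0 : ℝ) ≤ D.m := by positivity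
  rw [mul_div_assoc', div_le_iff₀ hpos]
  set s : ℝ := (D.m : ℝ) + D.n with hs'
  have hn : (D.n : ℝ) ≤ s := by linarith
  have hg0 : (0 : ℝ) ≤ D.g := by positivity
  have hn0 : (0 : ℝ) ≤ D.n := by positivity
  have h1 : s * D.g ≤ s * (s ^ 2 / 2) := mul_le_mul_of_nonneg_left (by linarith) (by linarith)
  have h2 : s * D.g * (68 * D.n) ≤ s * (s ^ 2 / 2) * (68 * s) :=
    mul_le_mul h1 (by linarith) (by positivity) (by positivity)
  calc s * D.g * (68 * D.n) ≤ s * (s ^ 2 / 2) * (68 * s) := h2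
    _ = 17 * (2 * s ^ 4) := by ring
    _ ≤ 17 * Λ := by linarith

theorem log_ge {Λ : ℝ} (h : 162 ≤ Λ) : 5 ≤ Real.log Λ := by
  rw [Real.le_log_iff_exp_le (by linarith)]
  have h1 := Real.exp_one_lt_d9
  have h2 : Real.exp 5 = Real.exp 1 ^ 5 := by
    rw [← Real.exp_nat_mul]
    norm_num
  have h3 : Real.exp 1 ^ 5 ≤ (2.7182818286 : ℝ) ^ 5 :=
    pow_le_pow_left₀ (Real.exp_pos 1).le h1.le 5
  rw [h2]
  refine h3.trans ((by norm_num : (2.7182818286 : ℝ) ^ 5 ≤ 162).trans h)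

theorem kappa_ge {Λ x : ℝ} (h : 162 ≤ Λ) (hx : x ≤ 17) :
    2 * Real.log Λ ≤ 2 * Real.pi * (Real.log (8 * Λ / 3) - 2 * Real.log 2) - x := by
  have h1 := log_ge h
  have h2 : Real.log (8 * Λ / 3) - 2 * Real.log 2 = Real.log Λ - Real.log (3 / 2) := by
    have e1 : (8 * Λ / 3 : ℝ) = Λ * (2 * 2) / (3 / 2) := by ring
    rw [e1, Real.log_div (by positivity) (by norm_num), Real.log_mul (by positivity) (by norm_num),
      Real.log_mul (by norm_num) (by norm_num)]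
    ring
  have h3 : Real.log (3 / 2) ≤ 1 / 2 := by
    have := Real.log_le_sub_one_of_pos (by norm_num : (0 : ℝ) < 3 / 2)
    linarith
  have h4 := Real.pi_gt_d2
  have h5 := Real.pi_lt_d2
  rw [h2]
  have h6 : 2 * Real.pi * (Real.log Λ - 1 / 2) ≤ 2 * Real.pi * (Real.log Λ - Real.log (3 / 2)) :=
    mul_le_mul_of_nonneg_left (by linarith) (by positivity)
  have h7 : 2 * 3.14 * Real.log Λ ≤ 2 * Real.pi * Real.log Λ :=
    mul_le_mul_of_nonneg_right (by linarith) (by linarith)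
  nlinarith

theorem node (D : Arr) (k : Idx D) : Node D (l1 D k) (ctr D k) := by
  rcases k with z | z
  · exact Or.inl ⟨z.1.1, rfl⟩
  · exact Or.inr ⟨z.1.2, z.2.2, rfl⟩

end MainM

open MainM in
/-- The main theorem. -/
theorem concl (hI : SpecInteg) (hIrr : SpecIrr) (hAlg : SpecAlgCl) (hGenus : SpecGenus)
    (hGon : SpecGon) (hSpan : SpecSpan) (hExact : SpecExact) (hRGL : SpecRGL) (hLAM : SpecLAM)
    (hLNL : SpecLNL) (hCRL : SpecCRL) (hPSI : SpecPSI) (D : Arr) (lam : ℤ) (Λ : ℝ)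
    (hΛ : 2 * ((D.m : ℝ) + D.n) ^ 4 ≤ Λ) (hmu : ∀ j c, Node D j c → Λ ≤ mu D lam j c) :
    ConclA D lam Λ := by
  have hC := C_ge D
  have h162 : 162 ≤ Λ := hC.trans hΛ
  have hlam0 : lam ≠ 0 := by
    rintro rfl
    have h1 := hmu (j0 D) (D.a (i0 D)) (Or.inl ⟨_, rfl⟩)
    unfold mu at h1
    rw [Int.cast_zero, abs_zero, zero_mul, zero_mul] at h1
    linarith
  have hsm : Smooth D lam := hCRL D lam fun j c h => by
    have := hmu j c h
    linarith
  refine ⟨(hIrr ℚ D lam hlam0).1, (hIrr ℂ D lam hlam0).1, ?_, ?_⟩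
  · intro K _ _ x y hc
    refine ⟨hAlg K D lam x y hc, ?_⟩
    have hs := s_ge D
    have h32 : 32 * (D.n : ℝ) ≤ Λ := by
      have hm0 : (0 : ℝ) ≤ D.m := by positivity
      have h1 : (3 : ℝ) ^ 3 ≤ ((D.m : ℝ) + D.n) ^ 3 := pow_le_pow_left₀ (by norm_num) hs 3
      have h2 : ((D.m : ℝ) + D.n) ^ 4 = ((D.m : ℝ) + D.n) ^ 3 * ((D.m : ℝ) + D.n) := by ring
      rw [h2] at hΛ
      nlinarith
    obtain ⟨γ, hγ⟩ := hRGL D lam K x y hc Λ h32 fun k => hmu _ _ (node D k)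
    set e : Fin D.g ≃ Idx D := (Fintype.equivFinOfCardEq (card_idx D)).symm with he
    have herr : ∀ i k, |reg (γ (e k)) (sym (uu hc (e i)) (ww hc (e i))) -
        2 * Real.pi * W.LINW.mod D 1 (Real.log |(lam : ℝ)|) (e i) (e k)| ≤ 68 * D.n / Λ :=
      fun i k => hγ (e i) (e k)
    have hx := err_le D hΛ
    have hk := kappa_ge h162 hx
    have hlog := log_ge h162
    have hdet := hLNL D (Real.log |(lam : ℝ)|) (Real.log (8 * Λ / 3))
      (fun j c h => hLAM D lam j c Λ (by linarith) h (hmu j c h)) e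
      (Matrix.of fun i k => reg (γ (e k)) (sym (uu hc (e i)) (ww hc (e i)))) (68 * D.n / Λ)
      herr (by linarith)
    refine ⟨e, fun i => sym (uu hc (e i)) (ww hc (e i)), fun k => γ (e k), ?_, ⟨?_, ?_⟩, ?_, ?_⟩
    · intro i
      exact ⟨uu hc (e i), ww hc (e i), div_mul_cancel₀ _ (int_ne hc _),
        div_mul_cancel₀ _ (line_ne hc _), rfl⟩
    · intro i
      exact ⟨fun v => tame_zero hI hc (e i) v, (hSpan K D lam x y hc).1 (e i)⟩
    · intro β hβ hv
      obtain ⟨N, hN, hmem⟩ := hExact K D lam x y hc β hβ hv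
      refine ⟨N, hN, ?_⟩
      have : (Set.range fun i => sym (uu hc (e i)) (ww hc (e i))) =
          Set.range fun i => sym (uu hc i) (ww hc i) :=
        e.surjective.range_comp (fun i => sym (uu hc i) (ww hc i))
      rw [this]
      exact hmem
    · intro i k
      have h1 := herr i k
      rw [hPSI] at h1
      exact h1
    · exact (pow_le_pow_left₀ (by linarith) hk D.g).trans hdet
  · intro K _ _ x y hc
    exact ⟨hGenus K D lam x y hsm hc, fun hpar => hGon K D lam x y hsm hpar hc⟩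

/-- At least 23 lines. -/
theorem large (hLRG : SpecLRG)
    (hmain : ∀ (D : Arr) (lam : ℤ) (Λ : ℝ), 2 * ((D.m : ℝ) + D.n) ^ 4 ≤ Λ →
      (∀ j c, Node D j c → Λ ≤ mu D lam j c) → ConclA D lam Λ)
    (D : Arr) (lam : ℤ) (hlam : lam ≠ 0) (h : 23 ≤ D.m + D.n) :
    ConclA D lam (2 * ((D.m : ℝ) + D.n) ^ 4) :=
  hmain D lam _ le_rfl fun j c hn => hLRG D lam hlam h j c hn

/-- The exceptions are finite in number up to affine transformations. -/
theorem finite (hLRG : SpecLRG) (hFNL : SpecFNL)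
    (hmain : ∀ (D : Arr) (lam : ℤ) (Λ : ℝ), 2 * ((D.m : ℝ) + D.n) ^ 4 ≤ Λ →
      (∀ j c, Node D j c → Λ ≤ mu D lam j c) → ConclA D lam Λ) :
    {z : (Σ m n : ℕ, (Fin m → ℤ) × (Fin n → ℤ) × (Fin n → ℤ)) × ℤ | z.2 ≠ 0 ∧
      ∃ D : Arr, D.data = z.1 ∧ D.a (i0 D) = 0 ∧ D.p (j0 D) = 0 ∧ D.q (j0 D) = 0 ∧
        ¬ ConclA D z.2 (2 * ((D.m : ℝ) + D.n) ^ 4)}.Finite := by
  set F : (m n : ℕ) → ((Fin m → ℤ) × (Fin n → ℤ) × (Fin n → ℤ) × ℤ) →
      (Σ m n : ℕ, (Fin m → ℤ) × (Fin n → ℤ) × (Fin n → ℤ)) × ℤ :=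
    fun m n z => (⟨m, n, z.1, z.2.1, z.2.2.1⟩, z.2.2.2) with hF
  have h1 : (⋃ m ∈ (Finset.range 23 : Finset ℕ), ⋃ n ∈ (Finset.range 23 : Finset ℕ),
      F m n '' {z : (Fin m → ℤ) × (Fin n → ℤ) × (Fin n → ℤ) × ℤ |
        (∀ i : Fin m, i.val = 0 → z.1 i = 0) ∧
        (∀ j : Fin n, j.val = 0 → z.2.1 j = 0 ∧ z.2.2.1 j = 0) ∧ z.2.2.2 ≠ 0 ∧
        ∃ D : Arr, D.data = ⟨m, n, z.1, z.2.1, z.2.2.1⟩ ∧
          ∃ j c, Node D j c ∧ mu D z.2.2.2 j c < 2 * ((m : ℝ) + n) ^ 4}).Finite := by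
    refine Set.Finite.biUnion (Finset.finite_toSet _) fun m _ => ?_
    refine Set.Finite.biUnion (Finset.finite_toSet _) fun n _ => ?_
    exact (hFNL m n _).image _
  refine h1.subset ?_
  rintro ⟨w, lam⟩ ⟨hlam, D, hD, ha, hp, hq, hno⟩
  have h23 : D.m + D.n < 23 := by
    by_contra h
    push Not at h
    exact hno (large hLRG hmain D lam hlam h)
  have hnode : ∃ j c, Node D j c ∧ mu D lam j c < 2 * ((D.m : ℝ) + D.n) ^ 4 := by
    by_contra h
    push Not at h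
    exact hno (hmain D lam _ le_rfl h)
  simp only [Set.mem_iUnion]
  refine ⟨D.m, Finset.mem_range.2 (by omega), D.n, Finset.mem_range.2 (by omega),
    (D.a, D.p, D.q, lam), ⟨?_, ?_, hlam, D, rfl, hnode⟩, ?_⟩
  · intro i hi
    have : i = i0 D := Fin.ext hi
    rw [this]
    exact ha
  · intro j hj
    have : j = j0 D := Fin.ext hj
    rw [this]
    exact ⟨hp, hq⟩
  · rw [hF]
    exact Prod.ext hD rfl

end MP743d1e.LA
end
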