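import Pool.Agent.Lib.MP_743d1e_nt.LA.Spec

/-!
# LRG: at least 23 lines
-/

set_option autoImplicit false

namespace MP743d1e.LA

open scoped BigOperators
open MP743d1e.K2Main

namespace LRGM

/-- the factor of an integer -/
noncomputable def F (d : ℤ) : ℝ := if d = 0 then 3 / 8 else |(d : ℝ)| - 1 / 2

theorem F_pos (d : ℤ) : 0 < F d := by
  unfold F
  split_ifs with h
  · norm_num
  · have h1 := Int.one_le_abs h
    have h2 : (1 : ℝ) ≤ |(d : ℝ)| := by exact_mod_cast h1
    linarith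

theorem F_small (d : ℤ) (hd : |d| ≤ 6) : F d / 6 ≤ 1 := by
  unfold F
  split_ifs with h
  · norm_num
  · have h2 : |(d : ℝ)| ≤ 6 := by exact_mod_cast hd
    linarith

theorem F_large (d : ℤ) (hd : ¬ |d| ≤ 6) : 1 ≤ F d / 6 := by
  unfold F
  split_ifs with h
  · rw [h] at hd
    norm_num at hd
  · have h1 : (7 : ℤ) ≤ |d| := by omega
    have h2 : (7 : ℝ) ≤ |(d : ℝ)| := by exact_mod_cast h1
    linarith

theorem prod_ge (S : Finset ℤ) (h0 : (0 : ℤ) ∉ S) :
    ∏ d ∈ (Finset.Icc (-6 : ℤ) 6).erase 0, F d / 6 ≤ ∏ d ∈ S, F d / 6 := by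
  classical
  have hS : ∀ d ∈ S, d ≠ 0 := fun d hd h => h0 (h ▸ hd)
  set A := S.filter fun d => |d| ≤ 6 with hA
  have h1 : ∏ d ∈ A, F d / 6 ≤ ∏ d ∈ S, F d / 6 := by
    rw [← Finset.prod_filter_mul_prod_filter_not S (fun d => |d| ≤ 6)]
    refine le_mul_of_one_le_right (Finset.prod_nonneg fun d hd => ?_) ?_
    · have := F_pos d
      positivity
    · have h2 : ∏ _d ∈ S.filter (fun d => ¬ |d| ≤ 6), (1 : ℝ) ≤
          ∏ d ∈ S.filter (fun d => ¬ |d| ≤ 6), F d / 6 :=
        Finset.prod_le_prod (fun _ _ => zero_le_one) fun d hd =>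
          F_large d (Finset.mem_filter.1 hd).2
      simpa using h2
  refine le_trans ?_ h1
  have hsub : A ⊆ (Finset.Icc (-6 : ℤ) 6).erase 0 := by
    intro d hd
    rw [hA, Finset.mem_filter] at hd
    rw [Finset.mem_erase, Finset.mem_Icc]
    exact ⟨hS d hd.1, abs_le.1 hd.2⟩
  rw [← Finset.prod_sdiff hsub]
  refine mul_le_of_le_one_left (Finset.prod_nonneg fun d hd => ?_) ?_
  · have := F_pos d
    positivity
  · refine Finset.prod_le_one (fun d hd => ?_) fun d hd => ?_
    · have := F_pos d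
      positivity
    · have h3 := Finset.mem_Icc.1 (Finset.mem_of_mem_erase (Finset.mem_sdiff.1 hd).1)
      exact F_small d (abs_le.2 h3)

theorem value : (12 / 1000000 : ℝ) ≤ ∏ d ∈ (Finset.Icc (-6 : ℤ) 6).erase 0, F d / 6 := by
  have h1 : (Finset.Icc (-6 : ℤ) 6).erase 0 = {-6, -5, -4, -3, -2, -1, 1, 2, 3, 4, 5, 6} := by
    decide
  rw [h1]
  unfold F
  norm_num

theorem set_ge (S : Finset ℤ) (h0 : (0 : ℤ) ∉ S) :
    (6 : ℝ) ^ S.card * (12 / 1000000) ≤ ∏ d ∈ S, F d := by
  have h4 : ∏ d ∈ S, F d = 6 ^ S.card * ∏ d ∈ S, F d / 6 := by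
    rw [Finset.prod_div_distrib, Finset.prod_const, mul_div_cancel₀]
    positivity
  rw [h4]
  exact mul_le_mul_of_nonneg_left (value.trans (prod_ge S h0)) (by positivity)

theorem pow_ge (N : ℕ) (hN : 23 ≤ N) : 2 * (N : ℝ) ^ 4 ≤
    3 / 8 * (6 ^ (N - 2) * (12 / 1000000) ^ 2) := by
  induction N, hN using Nat.le_induction with
  | base => norm_num
  | succ n hn ih =>
    have h1 : (23 : ℝ) ≤ n := by exact_mod_cast hn
    have h2 : (6 : ℝ) ^ (n + 1 - 2) = 6 * 6 ^ (n - 2) := by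
      rw [show n + 1 - 2 = (n - 2) + 1 by omega]
      ring
    have h3 : ((n : ℝ) + 1) ^ 4 ≤ 6 * (n : ℝ) ^ 4 := by
      have h5 : (n : ℝ) + 1 ≤ 3 / 2 * n := by linarith
      calc ((n : ℝ) + 1) ^ 4 ≤ (3 / 2 * n) ^ 4 := pow_le_pow_left₀ (by linarith) h5 4
        _ = 81 / 16 * (n : ℝ) ^ 4 := by ring
        _ ≤ 6 * (n : ℝ) ^ 4 := by
          have : (0 : ℝ) ≤ (n : ℝ) ^ 4 := by positivity
          linarith
    rw [h2]
    push_cast
    linarith

theorem fx_eq (c s : ℤ) : fx c s = F (c - s) := by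
  unfold fx F
  by_cases h : s = c
  · rw [if_pos h, if_pos (by omega)]
  · rw [if_neg h, if_neg (by omega)]
    push_cast
    rfl

end LRGM

open LRGM in
theorem specLRG : SpecLRG := by
  classical
  intro D lam hlam hN j c hc
  have h1 : (1 : ℝ) ≤ |(lam : ℝ)| := by exact_mod_cast Int.one_le_abs hlam
  set P := (Finset.univ.erase j).filter (fun l => D.p j = D.p l) with hP
  set Q := (Finset.univ.erase j).filter (fun l => ¬ D.p j = D.p l) with hQ
  have hPQ : P.card + Q.card = D.n - 1 := by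
    rw [hP, hQ, Finset.card_filter_add_card_filter_not, Finset.card_erase_of_mem (Finset.mem_univ j),
      Finset.card_univ, Fintype.card_fin]
  -- the parallel lines
  have hP1 : ∀ l ∈ P, D.q j - D.q l ≠ 0 := fun l hl h => by
    have h2 := Finset.mem_filter.1 hl
    exact Finset.ne_of_mem_erase h2.1 (D.line_inj j l h2.2 (by omega)).symm
  have hP2 : ∏ l ∈ P, fl D j l c = ∏ l ∈ P, F (D.q j - D.q l) := by
    refine Finset.prod_congr rfl fun l hl => ?_
    unfold fl F
    rw [if_pos (Finset.mem_filter.1 hl).2, if_neg (hP1 l hl)]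
    push_cast
    rfl
  have hP3 : (6 : ℝ) ^ P.card * (12 / 1000000) ≤ ∏ l ∈ P, F (D.q j - D.q l) := by
    have h2 : Set.InjOn (fun l => D.q j - D.q l) (P : Set (Fin D.n)) := by
      intro l hl l' hl' h
      have h3 := (Finset.mem_filter.1 (Finset.mem_coe.1 hl)).2
      have h4 := (Finset.mem_filter.1 (Finset.mem_coe.1 hl')).2
      refine D.line_inj l l' (h3.symm.trans h4) ?_
      have h5 : D.q j - D.q l = D.q j - D.q l' := h
      omega
    have h3 := set_ge (P.image fun l => D.q j - D.q l) (fun h => by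
      obtain ⟨l, hl, hl'⟩ := Finset.mem_image.1 h
      exact hP1 l hl hl')
    rwa [Finset.card_image_of_injOn h2, Finset.prod_image h2] at h3
  -- the crossings
  have hQ2 : ∏ l ∈ Q, F (c - D.r j l) ≤ ∏ l ∈ Q, fl D j l c := by
    refine Finset.prod_le_prod (fun l _ => (F_pos _).le) fun l hl => ?_
    have h2 := (Finset.mem_filter.1 hl).2
    unfold fl
    rw [if_neg h2, fx_eq]
    refine le_mul_of_one_le_left (F_pos _).le ?_
    have h3 := Int.one_le_abs (sub_ne_zero.2 h2)
    exact_mod_cast h3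
  set S1 := (Finset.univ.image fun i => c - D.a i) ∪ Q.image fun l => c - D.r j l with hS1
  have hia : Set.InjOn (fun i => c - D.a i) ((Finset.univ : Finset (Fin D.m)) : Set (Fin D.m)) := by
    intro i _ i' _ h
    refine D.a_inj ?_
    have h5 : c - D.a i = c - D.a i' := h
    omega
  have hir : Set.InjOn (fun l => c - D.r j l) (Q : Set (Fin D.n)) := by
    intro l hl l' hl' h
    have h3 := (Finset.mem_filter.1 (Finset.mem_coe.1 hl)).2
    have h4 := (Finset.mem_filter.1 (Finset.mem_coe.1 hl')).2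
    by_contra h6
    refine D.no_triple j l l' h3 h4 h6 ?_
    have h5 : c - D.r j l = c - D.r j l' := h
    omega
  have hdisj : Disjoint (Finset.univ.image fun i => c - D.a i) (Q.image fun l => c - D.r j l) := by
    rw [Finset.disjoint_left]
    intro d hd hd'
    obtain ⟨i, _, hi⟩ := Finset.mem_image.1 hd
    obtain ⟨l, hl, hl'⟩ := Finset.mem_image.1 hd'
    exact D.cross_a j l i (Finset.mem_filter.1 hl).2 (by omega)
  have hcard : S1.card = D.m + Q.card := by
    rw [hS1, Finset.card_union_of_disjoint hdisj, Finset.card_image_of_injOn hia,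
      Finset.card_image_of_injOn hir, Finset.card_univ, Fintype.card_fin]
  have hprod : ∏ d ∈ S1, F d = (∏ i, F (c - D.a i)) * ∏ l ∈ Q, F (c - D.r j l) := by
    rw [hS1, Finset.prod_union hdisj, Finset.prod_image hia, Finset.prod_image hir]
  have h0 : (0 : ℤ) ∈ S1 := by
    rw [hS1, Finset.mem_union]
    rcases hc with ⟨i, hi⟩ | ⟨l, hl, hl'⟩
    · exact Or.inl (Finset.mem_image.2 ⟨i, Finset.mem_univ i, by omega⟩)
    · refine Or.inr (Finset.mem_image.2 ⟨l, Finset.mem_filter.2 ⟨Finset.mem_erase.2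
        ⟨fun h => hl (by rw [h]), Finset.mem_univ l⟩, hl⟩, by omega⟩)
  have hS : 3 / 8 * ((6 : ℝ) ^ (D.m + Q.card - 1) * (12 / 1000000)) ≤ ∏ d ∈ S1, F d := by
    rw [← Finset.mul_prod_erase S1 F h0, ← hcard, ← Finset.card_erase_of_mem h0]
    have h2 : F 0 = 3 / 8 := by
      unfold F
      rw [if_pos rfl]
    rw [h2]
    exact mul_le_mul_of_nonneg_left (set_ge _ (Finset.notMem_erase 0 S1)) (by norm_num)
  have hm := D.hm
  have hn := D.hn
  have hexp : D.m + D.n - 2 = (D.m + Q.card - 1) + P.card := by omega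
  have hbig := pow_ge (D.m + D.n) hN
  rw [hexp, pow_add] at hbig
  push_cast at hbig
  refine hbig.trans ?_
  have hA0 : 0 < ∏ i, F (c - D.a i) := Finset.prod_pos fun i _ => F_pos _
  have hB0 : 0 < ∏ l ∈ Q, F (c - D.r j l) := Finset.prod_pos fun i _ => F_pos _
  have hC0 : 0 < ∏ l ∈ P, F (D.q j - D.q l) := Finset.prod_pos fun i _ => F_pos _
  calc 3 / 8 * ((6 : ℝ) ^ (D.m + Q.card - 1) * 6 ^ P.card * (12 / 1000000) ^ 2)
      = (3 / 8 * ((6 : ℝ) ^ (D.m + Q.card - 1) * (12 / 1000000))) *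
        (6 ^ P.card * (12 / 1000000)) := by ring
    _ ≤ (∏ d ∈ S1, F d) * ∏ l ∈ P, F (D.q j - D.q l) := by
        refine mul_le_mul hS hP3 (by positivity) ?_
        rw [hprod]
        positivity
    _ = (∏ i, F (c - D.a i)) * ((∏ l ∈ P, F (D.q j - D.q l)) * ∏ l ∈ Q, F (c - D.r j l)) := by
        rw [hprod]
        ring
    _ ≤ (∏ i, F (c - D.a i)) * ((∏ l ∈ P, fl D j l c) * ∏ l ∈ Q, fl D j l c) := by
        rw [hP2]
        exact mul_le_mul_of_nonneg_left (mul_le_mul_of_nonneg_left hQ2 hC0.le) hA0.le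
    _ ≤ mu D lam j c := by
        unfold mu
        rw [hP, hQ, Finset.prod_filter_mul_prod_filter_not]
        have h2 : ∏ i, fx c (D.a i) = ∏ i, F (c - D.a i) :=
          Finset.prod_congr rfl fun i _ => fx_eq c (D.a i)
        rw [h2]
        have h3 : 0 ≤ (∏ i, F (c - D.a i)) * ∏ l ∈ Finset.univ.erase j, fl D j l c := by
          rw [← Finset.prod_filter_mul_prod_filter_not (Finset.univ.erase j)
            (fun l => D.p j = D.p l) (fun l => fl D j l c), ← hP, ← hQ, hP2]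
          exact mul_nonneg hA0.le (mul_nonneg hC0.le (hB0.le.trans hQ2))
        rw [mul_assoc]
        exact le_mul_of_one_le_left h3 h1

end MP743d1e.LA
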