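import Pool.Agent.Lib.MP_743d1e_nt.LA.Spec
import Pool.Agent.Lib.MP_743d1e_nt.HY.CIR
import Pool.Agent.Lib.MP_743d1e_nt.HY.EXA
import Pool.Agent.Lib.MP_743d1e_nt.W.ASW

/-!
# RGL: the regulators of the symbols along the circles
-/

set_option autoImplicit false

namespace MP743d1e.LA.RGLM

open scoped BigOperators
open MP743d1e.W MP743d1e.K2Main MP743d1e.Hy.REGM

theorem cir : Hy.SpecCIR := Hy.specCIR Hy.specLOG

theorem lt_int {c s : ℤ} {R : ℝ} (hR2 : R < 1 / 2) (h : s ≠ c) : R < |(c : ℝ) - s| := by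
  have h1 : 1 ≤ |c - s| := Int.one_le_abs (sub_ne_zero.2 (Ne.symm h))
  have h2 : (1 : ℝ) ≤ |(c : ℝ) - s| := by exact_mod_cast h1
  linarith

theorem reg_inv_right {F : Type} [Field F] (γ : Loop F) (f h : Fˣ) :
    reg γ (sym f h⁻¹) = -reg γ (sym f h) := by
  rw [reg_swap, reg_inv_left, reg_swap γ h f, neg_neg]

section Lin

variable {K : Type} [Field K] {x : K} {γ : Loop K} {X : ℤ → Kˣ} {c : ℤ} {R : ℝ}

theorem evX (hX : ∀ s, (X s : K) = x - (s : K)) (hγ : ∀ θ, γ.ev θ x = circ c R θ) (s : ℤ) :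
    (fun θ => γ.ev θ (X s : K)) = fun θ => circ c R θ - (s : ℂ) := by
  funext θ
  rw [hX, map_sub, hγ, map_intCast]

theorem xi_self (c : ℤ) : xi 1 c c = 0 := by
  unfold xi
  simp

/-- the integral for two linear functions of `x` -/
theorem reg_lin (hR : 0 < R) (hR2 : R < 1 / 2) (hX : ∀ s, (X s : K) = x - (s : K))
    (hγ : ∀ θ, γ.ev θ x = circ c R θ) (a b : ℤ) : reg γ (sym (X a) (X b)) = 2 * Real.pi *
      (xi 1 c a * dl c b - xi 1 c b * dl c a) := by
  by_cases hb : b = c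
  · subst hb
    by_cases ha : a = b
    · subst ha
      rw [reg_self]
      ring
    · rw [reg_sym, evX hX hγ, evX hX hγ, (cir b a 0 R hR (lt_int hR2 ha)).2.1, xi_self]
      unfold dl xi
      rw [if_pos rfl, if_neg ha, div_one]
      ring
  · by_cases ha : a = c
    · subst ha
      rw [reg_swap, reg_sym, evX hX hγ, evX hX hγ, (cir a b 0 R hR (lt_int hR2 hb)).2.1, xi_self]
      unfold dl xi
      rw [if_pos rfl, if_neg hb, div_one]
      ring
    · rw [reg_sym, evX hX hγ, evX hX hγ, (cir c a b R hR (lt_int hR2 ha)).1 (lt_int hR2 hb)]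
      unfold dl
      rw [if_neg ha, if_neg hb]
      ring

theorem reg_const (hR : 0 < R) (hR2 : R < 1 / 2) (hX : ∀ s, (X s : K) = x - (s : K))
    (hγ : ∀ θ, γ.ev θ x = circ c R θ) {z : ℤ} (hz : z ≠ 0) {Z : Kˣ} (hZ : (Z : K) = (z : K))
    (a : ℤ) : reg γ (sym (X a) Z) = 2 * Real.pi * (-(Real.log |(z : ℝ)| * dl c a)) := by
  have hevL : (fun θ => γ.ev θ (Z : K)) = fun _ => ((z : ℤ) : ℂ) := by
    funext θ
    rw [hZ, map_intCast]
  have hlC : ((z : ℤ) : ℂ) ≠ 0 := by exact_mod_cast hz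
  by_cases ha : a = c
  · subst ha
    have h1 : a + 1 ≠ a := by omega
    rw [reg_sym, evX hX hγ, hevL, (cir a (a + 1) 0 R hR (lt_int hR2 h1)).2.2.2 _ hlC,
      Complex.norm_intCast]
    unfold dl
    rw [if_pos rfl]
    ring
  · rw [reg_sym, evX hX hγ, hevL, (cir c a 0 R hR (lt_int hR2 ha)).2.2.1 _ hlC]
    unfold dl
    rw [if_neg ha]
    ring

end Lin

/-! ### The error term -/

theorem error_bound {c : ℤ} {R : ℝ} (hR : 0 < R) (hR2 : R < 1 / 2) (i j : ℤ) (ℓ : ℝ → ℂ)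
    (hℓ : ContDiff ℝ 1 ℓ) (hℓp : ∀ θ, ℓ (θ + 2 * Real.pi) = ℓ θ) (δ : ℝ)
    (hδ : ∀ θ, ‖ℓ θ‖ ≤ δ) :
    |regInt (fun θ => (circ c R θ - (i : ℂ)) / (circ c R θ - (j : ℂ)))
      (fun θ => Complex.exp (ℓ θ))| ≤ 4 * Real.pi * δ := by
  set u : ℝ → ℂ := fun θ => (circ c R θ - (i : ℂ)) / (circ c R θ - (j : ℂ)) with hu
  have hne : ∀ (a : ℤ) θ, circ c R θ - (a : ℂ) ≠ 0 := fun a θ => Circ.circ_sub_ne hR hR2 c a θ
  have hc : ContDiff ℝ 1 (circ c R) := Circ.contDiff_circ _ _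
  have hu1 : ContDiff ℝ 1 u :=
    (hc.sub contDiff_const).mul ((hc.sub contDiff_const).inv (hne j))
  have hup : ∀ θ, u (θ + 2 * Real.pi) = u θ := by
    intro θ
    simp only [hu, Circ.circ_periodic]
  have hu0 : ∀ θ, u θ ≠ 0 := fun θ => div_ne_zero (hne i θ) (hne j θ)
  have hdu : ∀ θ, deriv u θ / u θ =
      Complex.I * (circ c R θ - (c : ℂ)) / (circ c R θ - (i : ℂ)) -
      Complex.I * (circ c R θ - (c : ℂ)) / (circ c R θ - (j : ℂ)) := by
    intro θ
    have h1 := (Circ.hasDerivAt_circ c R θ).sub_const (i : ℂ)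
    have h2 := (Circ.hasDerivAt_circ c R θ).sub_const (j : ℂ)
    have h3 := h1.div h2 (hne j θ)
    have h4 : deriv u θ = (Complex.I * (circ c R θ - (c : ℂ)) *
        (circ c R θ - (j : ℂ)) - (circ c R θ - (i : ℂ)) *
          (Complex.I * (circ c R θ - (c : ℂ)))) /
        (circ c R θ - (j : ℂ)) ^ 2 := h3.deriv
    rw [h4]
    simp only [hu]
    have := hne i θ
    have := hne j θ
    field_simp
  have hb : ∀ θ, ‖deriv u θ / u θ‖ ≤ 2 := by
    intro θ
    rw [hdu]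
    refine (norm_sub_le _ _).trans ?_
    have h1 : ∀ a : ℤ, ‖Complex.I * (circ c R θ - (c : ℂ)) /
        (circ c R θ - (a : ℂ))‖ ≤ 1 := by
      intro a
      rw [norm_div, Circ.norm_deriv_circ hR]
      exact (div_le_one (norm_pos_iff.2 (hne a θ))).2 (Circ.le_norm_circ_sub hR hR2 c a θ)
    linarith [h1 i, h1 j]
  have hδ0 : 0 ≤ δ := (norm_nonneg _).trans (hδ 0)
  rw [regInt_swap, abs_neg, Hy.specLOG ℓ u hℓ hu1 hℓp hup hu0]
  have h5 := intervalIntegral.norm_integral_le_of_norm_le_const (a := 0) (b := 2 * Real.pi)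
    (f := fun θ => (ℓ θ * (deriv u θ / u θ)).im) (C := 2 * δ) (fun θ _ => by
      rw [Real.norm_eq_abs]
      refine (Complex.abs_im_le_norm _).trans ?_
      rw [norm_mul]
      have := hδ θ
      have := hb θ
      nlinarith [norm_nonneg (ℓ θ), norm_nonneg (deriv u θ / u θ)])
  rw [Real.norm_eq_abs, sub_zero, abs_of_pos (by positivity : (0 : ℝ) < 2 * Real.pi)] at h5
  linarith

/-! ### One loop -/

section Loop1

variable {D : Arr} {lam : ℤ} {K : Type} [Field K] {x y : K} {γ : Loop K} {X : ℤ → Kˣ}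
  {U : Fin D.n → Kˣ} {L : Kˣ} {j : Fin D.n} {c : ℤ} {R Λ : ℝ} {Y : ℝ → ℂ}

/-- the leading part of `y - b l` on the sheet `j` -/
theorem lead [CharZero K] (hR : 0 < R) (hR2 : R < 1 / 2) (hX : ∀ s, (X s : K) = x - (s : K))
    (hγ : ∀ θ, γ.ev θ x = circ c R θ) {l : Fin D.n} (hl : l ≠ j) (L0 : ℝ) :
    ∃ B : Kˣ, (B : K) = D.b j x - D.b l x ∧
      ∀ s, reg γ (sym (X s) B) = 2 * Real.pi * Phi D 1 L0 j c s l := by
  by_cases hp : D.p j = D.p l
  · have hq : D.q j - D.q l ≠ 0 := by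
      intro h2
      exact hl (D.line_inj l j hp.symm (by omega))
    have hq0 : ((D.q j - D.q l : ℤ) : K) ≠ 0 := by exact_mod_cast hq
    refine ⟨Units.mk0 _ hq0, ?_, fun s => ?_⟩
    · show ((D.q j - D.q l : ℤ) : K) = _
      simp only [Arr.b, hp]
      push_cast
      ring
    · rw [reg_const hR hR2 hX hγ hq (Z := Units.mk0 _ hq0) rfl s]
      unfold Phi YY om bt nu zt lw ind
      rw [if_neg hl, if_neg hl, if_pos hp, if_pos hp, if_pos hp, if_neg (fun h => h.1 hp), div_one]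
      push_cast
      ring
  · have hq : D.p j - D.p l ≠ 0 := sub_ne_zero.2 hp
    have hq0 : ((D.p j - D.p l : ℤ) : K) ≠ 0 := by exact_mod_cast hq
    refine ⟨Units.mk0 _ hq0 * X (D.r j l), ?_, fun s => ?_⟩
    · rw [Units.val_mul, hX]
      show ((D.p j - D.p l : ℤ) : K) * _ = _
      have h4 := D.cross j l hp
      have h5 : ((D.p j : ℤ) : K) * (D.r j l : K) + (D.q j : K) =
          (D.p l : K) * (D.r j l : K) + (D.q l : K) := by exact_mod_cast h4
      simp only [Arr.b]; push_cast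
      linear_combination (-1 : K) * h5
    · rw [reg_mul_right, reg_const hR hR2 hX hγ hq (Z := Units.mk0 _ hq0) rfl s,
        reg_lin hR hR2 hX hγ s (D.r j l)]
      have h6 : dl c (D.r j l) = ind D j l c := by
        unfold dl ind
        by_cases h7 : D.r j l = c
        · rw [if_pos h7, if_pos ⟨hp, h7⟩]
        · rw [if_neg h7, if_neg (fun h => h7 h.2)]
      rw [h6]
      unfold Phi YY om bt nu zt lw
      rw [if_neg hl, if_neg hl, if_neg hp, if_neg hp, if_neg hp]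
      push_cast
      ring

/-- the error for a line different from `j` -/
theorem err_ne [CharZero K] (hR1 : 3 / 8 < R) (hR2 : R < 1 / 2) (hΛ : 64 ≤ Λ)
    (hX : ∀ s, (X s : K) = x - (s : K)) (hU : ∀ l, (U l : K) = y - D.b l x)
    (hγ : ∀ θ, γ.ev θ x = circ c R θ) (hγy : ∀ θ, γ.ev θ y = Y θ) (hY : ContDiff ℝ 1 Y)
    (hYp : ∀ θ, Y (θ + 2 * Real.pi) = Y θ)
    (hnear : ∀ θ, ‖Y θ - D.b j (circ c R θ)‖ ≤ 4 / (3 * Λ)) {l : Fin D.n} (hl : l ≠ j) (L0 : ℝ)
    (s s0 : ℤ) : |reg γ (sym (X s * (X s0)⁻¹) (U l)) -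
      2 * Real.pi * (Phi D 1 L0 j c s l - Phi D 1 L0 j c s0 l)| ≤ 64 * Real.pi / (3 * Λ) := by
  have hR : 0 < R := by linarith
  have hΛ0 : 0 < Λ := by linarith
  obtain ⟨B, hB, hBreg⟩ := lead (D := D) (j := j) hR hR2 hX hγ hl L0
  set V : Kˣ := U l * B⁻¹ with hV
  have hUV : U l = B * V := by
    rw [hV, mul_comm (U l), mul_inv_cancel_left]
  have hblo : ∀ θ, 3 / 8 ≤ ‖D.b j (circ c R θ) - D.b l (circ c R θ)‖ := fun θ =>
    hR1.le.trans (Circ.le_norm_b_sub D hR hR2 c θ (Ne.symm hl))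
  have hb0 : ∀ θ, D.b j (circ c R θ) - D.b l (circ c R θ) ≠ 0 := by
    intro θ
    rw [← norm_pos_iff]
    have := hblo θ
    linarith
  set f : ℝ → ℂ := fun θ =>
    (Y θ - D.b j (circ c R θ)) * (D.b j (circ c R θ) - D.b l (circ c R θ))⁻¹ with hf
  have hfn : ∀ θ, ‖f θ‖ ≤ 32 / (9 * Λ) := by
    intro θ
    rw [hf, norm_mul, norm_inv]
    have h1 : ‖D.b j (circ c R θ) - D.b l (circ c R θ)‖⁻¹ ≤ (3 / 8)⁻¹ :=
      inv_anti₀ (by norm_num) (hblo θ)
    calc ‖Y θ - D.b j (circ c R θ)‖ * ‖D.b j (circ c R θ) - D.b l (circ c R θ)‖⁻¹ ≤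
        4 / (3 * Λ) * (3 / 8)⁻¹ := mul_le_mul (hnear θ) h1 (by positivity) (by positivity)
      _ = 32 / (9 * Λ) := by
        field_simp
        norm_num
  have hsmall : 32 / (9 * Λ) ≤ 1 / 2 := by
    rw [div_le_div_iff₀ (by positivity) (by norm_num)]
    linarith
  have hbc : ∀ l, ContDiff ℝ 1 (fun θ => D.b l (circ c R θ)) := fun l => Circ.contDiff_b D c R l
  have hfc : ContDiff ℝ 1 f := (hY.sub (hbc j)).mul (((hbc j).sub (hbc l)).inv hb0)
  set ℓ : ℝ → ℂ := fun θ => Complex.log (1 + f θ) with hℓdef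
  have hℓc : ContDiff ℝ 1 ℓ := Hy.PTH.contDiff_log hfc fun θ => by
    have := hfn θ
    linarith
  have hℓp : ∀ θ, ℓ (θ + 2 * Real.pi) = ℓ θ := by
    intro θ
    simp only [hℓdef, hf, hYp, Circ.circ_periodic]
  have hℓn : ∀ θ, ‖ℓ θ‖ ≤ 16 / (3 * Λ) := by
    intro θ
    have h1 := Complex.norm_log_one_add_half_le_self (z := f θ) ((hfn θ).trans hsmall)
    have h2 := hfn θ
    have h3 : 16 / (3 * Λ) = 3 / 2 * (32 / (9 * Λ)) := by
      field_simp
      norm_num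
    rw [h3]
    exact h1.trans (mul_le_mul_of_nonneg_left h2 (by norm_num))
  have hu : X s * (X s0)⁻¹ = X s * (X s0)⁻¹ := rfl
  have hmain : reg γ (sym (X s * (X s0)⁻¹) B) =
      2 * Real.pi * (Phi D 1 L0 j c s l - Phi D 1 L0 j c s0 l) := by
    rw [reg_mul_left, reg_inv_left, hBreg, hBreg]
    ring
  rw [hUV, reg_mul_right, hmain, add_sub_cancel_left, reg_sym]
  have h1 : (fun θ => γ.ev θ ((X s * (X s0)⁻¹ : Kˣ) : K)) = fun θ =>
      (circ c R θ - (s : ℂ)) / (circ c R θ - (s0 : ℂ)) := by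
    funext θ
    rw [Units.val_mul, Units.val_inv_eq_inv_val, map_mul, map_inv₀, hX, hX, map_sub, map_sub, hγ,
      map_intCast, map_intCast, div_eq_mul_inv]
  have hevb : ∀ l θ, γ.ev θ (D.b l x) = D.b l (circ c R θ) := by
    intro l θ
    simp only [Arr.b, map_add, map_mul, map_intCast, hγ]
  have h2 : (fun θ => γ.ev θ (V : K)) = fun θ => Complex.exp (ℓ θ) := by
    funext θ
    have h3 : 1 + f θ ≠ 0 := Complex.slitPlane_ne_zero
      (Complex.mem_slitPlane_of_norm_lt_one (by have := hfn θ; linarith))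
    rw [hℓdef, Complex.exp_log h3, hV, Units.val_mul, Units.val_inv_eq_inv_val, map_mul, map_inv₀,
      hU, hB, map_sub, map_sub, hγy, hevb, hevb, hf]
    have := hb0 θ
    field_simp
    ring
  rw [h1, h2]
  refine (error_bound hR hR2 s s0 ℓ hℓc hℓp _ hℓn).trans (le_of_eq ?_)
  ring

/-- the error for the line `j` -/
theorem err_self [CharZero K] (hR : 0 < R) (hR2 : R < 1 / 2)
    (hX : ∀ s, (X s : K) = x - (s : K)) (hγ : ∀ θ, γ.ev θ x = circ c R θ)
    (hlam : lam ≠ 0) (hL : (L : K) = (lam : K))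
    (heq : L * (∏ i, X (D.a i)) * ∏ l, U l = 1) (s s0 : ℤ) :
    reg γ (sym (X s * (X s0)⁻¹) (U j)) - 2 * Real.pi * (Phi D 1 (Real.log |(lam : ℝ)|) j c s j -
        Phi D 1 (Real.log |(lam : ℝ)|) j c s0 j) =
      -∑ l ∈ Finset.univ.erase j, (reg γ (sym (X s * (X s0)⁻¹) (U l)) -
        2 * Real.pi * (Phi D 1 (Real.log |(lam : ℝ)|) j c s l -
          Phi D 1 (Real.log |(lam : ℝ)|) j c s0 l)) := by
  set L0 : ℝ := Real.log |(lam : ℝ)| with hL0
  set F : Kˣ := X s * (X s0)⁻¹ with hF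
  have h1 : reg γ (sym F L) + ∑ i, reg γ (sym F (X (D.a i))) +
      (reg γ (sym F (U j)) + ∑ l ∈ Finset.univ.erase j, reg γ (sym F (U l))) = 0 := by
    have h2 := congrArg (fun z => reg γ (sym F z)) heq
    simp only [reg_mul_right, reg_prod_right, reg_one_right] at h2
    rw [← Finset.add_sum_erase _ _ (Finset.mem_univ j)] at h2
    exact h2
  have h2 : reg γ (sym F L) = 2 * Real.pi * (-(L0 * dl c s) + L0 * dl c s0) := by
    rw [hF, reg_mul_left, reg_inv_left, reg_const hR hR2 hX hγ hlam hL s,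
      reg_const hR hR2 hX hγ hlam hL s0]
    ring
  have h3 : ∀ a, reg γ (sym F (X a)) = 2 * Real.pi *
      ((xi 1 c s * dl c a - xi 1 c a * dl c s) - (xi 1 c s0 * dl c a - xi 1 c a * dl c s0)) := by
    intro a
    rw [hF, reg_mul_left, reg_inv_left, reg_lin hR hR2 hX hγ s a, reg_lin hR hR2 hX hγ s0 a]
    ring
  have h4 : ∀ s, Phi D 1 L0 j c s j + ∑ l ∈ Finset.univ.erase j, Phi D 1 L0 j c s l =
      L0 * dl c s - ∑ i, (xi 1 c s * dl c (D.a i) - xi 1 c (D.a i) * dl c s) := by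
    intro s
    have e1 : ∀ l ∈ Finset.univ.erase j, Phi D 1 L0 j c s l =
        xi 1 c s * ind D j l c - bt D 1 j l c * dl c s := by
      intro l hl
      have := Finset.ne_of_mem_erase hl
      unfold Phi om YY
      rw [if_neg this, if_neg this]
      ring
    have e2 : ∑ l, ind D j l c = ∑ l ∈ Finset.univ.erase j, ind D j l c := by
      rw [← Finset.add_sum_erase _ _ (Finset.mem_univ j), ASWM.ind_self, zero_add]
    have e3 : ∑ l, bt D 1 j l c = ∑ l ∈ Finset.univ.erase j, bt D 1 j l c := by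
      rw [← Finset.add_sum_erase _ _ (Finset.mem_univ j), ASWM.bt_self, zero_add]
    rw [Finset.sum_congr rfl e1, Finset.sum_sub_distrib, ← Finset.mul_sum, ← Finset.sum_mul,
      Finset.sum_sub_distrib, ← Finset.mul_sum, ← Finset.sum_mul]
    unfold Phi om YY wj Lam
    rw [if_pos rfl, if_pos rfl, ASWM.ind_self, ASWM.bt_self, e2, e3]
    ring
  have h5 := h4 s
  have h6 := h4 s0
  rw [Finset.sum_sub_distrib, ← Finset.mul_sum, Finset.sum_sub_distrib]
  rw [h2] at h1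
  simp only [h3] at h1
  rw [← Finset.mul_sum, Finset.sum_sub_distrib] at h1
  linear_combination h1 - 2 * Real.pi * h5 + 2 * Real.pi * h6

end Loop1

theorem l1_ne_l2 (D : Arr) (i : Idx D) : l1 D i ≠ l2 D i := by
  rcases i with z | z
  · intro h
    have h1 : z.1.2 = j0 D := h
    exact z.2.2 (by rw [h1]; rfl)
  · exact ne_of_lt z.2.1

theorem specRGL (hSHL : SpecSHL) (hE : SpecEmb) : SpecRGL := by
  intro D lam K _ _ x y hc Λ hΛ hmu
  have hn : (2 : ℝ) ≤ D.n := by exact_mod_cast D.hn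
  have h64 : 64 ≤ Λ := by linarith
  have hΛ0 : 0 < Λ := by linarith
  have hlam : lam ≠ 0 := lam_ne hc
  have : CharZero K := charZero_of_injective_algebraMap (algebraMap ℚ K).injective
  have hl0 : (lam : K) ≠ 0 := by exact_mod_cast hlam
  obtain ⟨R, hR1, hR2, htr⟩ := Hy.RELM.radius (3 / 8) (1 / 2) (by norm_num)
  have hR : 0 < R := by linarith
  have hpath : ∀ k : Idx D, ∃ (γ : Loop K) (Y : ℝ → ℂ), ContDiff ℝ 1 Y ∧
      (∀ θ, Y (θ + 2 * Real.pi) = Y θ) ∧
      (∀ θ, ‖Y θ - D.b (l1 D k) (circ (ctr D k) R θ)‖ ≤ 4 / (3 * Λ)) ∧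
      (∀ θ, γ.ev θ x = circ (ctr D k) R θ) ∧ ∀ θ, γ.ev θ y = Y θ := by
    intro k
    obtain ⟨Y, hY, hYp, heq, hnear⟩ := hSHL D lam (l1 D k) (ctr D k) R Λ hR1 hR2 hΛ (hmu k)
    obtain ⟨γ, hγ⟩ := hE K D lam x y hc (circ (ctr D k) R) Y (Circ.contDiff_circ _ _) hY
      (Circ.circ_periodic _ _) hYp (htr _) heq
    exact ⟨γ, Y, hY, hYp, hnear, fun θ => (hγ θ).1, fun θ => (hγ θ).2⟩
  choose γ Y hY hYp hnear hγx hγy using hpath
  refine ⟨γ, fun i k => ?_⟩
  set X : ℤ → Kˣ := fun s => Units.mk0 _ (int_ne hc s) with hXdef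
  have hX : ∀ s, (X s : K) = x - (s : K) := fun s => rfl
  set U : Fin D.n → Kˣ := fun l => Units.mk0 _ (line_ne hc l) with hUdef
  have hU : ∀ l, (U l : K) = y - D.b l x := fun l => rfl
  set L : Kˣ := Units.mk0 _ hl0 with hLdef
  have hL : (L : K) = (lam : K) := rfl
  have heq : L * (∏ i, X (D.a i)) * ∏ l, U l = 1 := by
    apply Units.ext
    rw [Units.val_mul, Units.val_mul, Units.coe_prod, Units.coe_prod, Units.val_one]
    exact hc.eqn
  have huu : uu hc i = X (ctr D i) * (X (D.a (i0 D)))⁻¹ := by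
    apply Units.ext
    rw [Units.val_mul, Units.val_inv_eq_inv_val]
    exact div_eq_mul_inv _ _
  have hww : ww hc i = U (l1 D i) * (U (l2 D i))⁻¹ := by
    apply Units.ext
    rw [Units.val_mul, Units.val_inv_eq_inv_val]
    exact div_eq_mul_inv _ _
  set j : Fin D.n := l1 D k with hj
  set c : ℤ := ctr D k with hcdef
  set L0 : ℝ := Real.log |(lam : ℝ)| with hL0
  set E : Fin D.n → ℝ := fun l => reg (γ k) (sym (X (ctr D i) * (X (D.a (i0 D)))⁻¹) (U l)) -
    2 * Real.pi * (Phi D 1 L0 j c (ctr D i) l - Phi D 1 L0 j c (D.a (i0 D)) l) with hEdef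
  set ε : ℝ := 64 * Real.pi / (3 * Λ) with hε
  have hε0 : 0 ≤ ε := by positivity
  have hEne : ∀ l, l ≠ j → |E l| ≤ ε := fun l hl =>
    err_ne hR1 hR2 h64 hX hU (hγx k) (hγy k) (hY k) (hYp k) (hnear k) hl L0 _ _
  have hEself : |E j| ≤ ((D.n : ℝ) - 1) * ε := by
    have h1 : E j = -∑ l ∈ Finset.univ.erase j, E l :=
      err_self hR hR2 hX (hγx k) hlam hL heq _ _
    rw [h1, abs_neg]
    refine (Finset.abs_sum_le_sum_abs _ _).trans ?_
    refine (Finset.sum_le_sum fun l hl => hEne l (Finset.ne_of_mem_erase hl)).trans ?_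
    rw [Finset.sum_const, nsmul_eq_mul, Finset.card_erase_of_mem (Finset.mem_univ j),
      Finset.card_univ, Fintype.card_fin, Nat.cast_sub (by have := D.hn; omega), Nat.cast_one]
  have hdiff : reg (γ k) (sym (uu hc i) (ww hc i)) - 2 * Real.pi * LINW.mod D 1 L0 i k =
      E (l1 D i) - E (l2 D i) := by
    rw [huu, hww, reg_mul_right, reg_inv_right, hEdef]
    unfold LINW.mod
    ring
  rw [hdiff]
  have hne := l1_ne_l2 D i
  have hfin : |E (l1 D i) - E (l2 D i)| ≤ D.n * ε := by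
    refine (abs_sub _ _).trans ?_
    by_cases h1 : l1 D i = j
    · have h2 : l2 D i ≠ j := fun h => hne (h1.trans h.symm)
      have h3 := hEne _ h2
      rw [h1]
      linarith
    · have h3 := hEne _ h1
      by_cases h2 : l2 D i = j
      · rw [h2]
        linarith
      · have h4 := hEne _ h2
        nlinarith
  refine hfin.trans ?_
  rw [hε, mul_div_assoc', div_le_div_iff₀ (by positivity) hΛ0]
  have hpi := Real.pi_lt_d2
  have h5 : 64 * Real.pi ≤ 204 := by linarith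
  calc (D.n : ℝ) * (64 * Real.pi) * Λ ≤ (D.n : ℝ) * 204 * Λ := by gcongr
    _ = 68 * D.n * (3 * Λ) := by ring

end MP743d1e.LA.RGLM
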