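import Pool.Agent.Lib.MP_743d1e_nt.K2Main
import Pool.Agent.Lib.MP_743d1e_nt.Statement
import Pool.Agent.Lib.MP_743d1e_nt.U.StU

/-!
# Line arrangements under local conditions at the crossings: definitions
-/

set_option autoImplicit false

namespace MP743d1e.LA

open scoped BigOperators
open MP743d1e.K2Main

/-- `c` is the abscissa of a crossing on the `j`-th line. -/
def Node (D : Arr) (j : Fin D.n) (c : ℤ) : Prop :=
  (∃ i, c = D.a i) ∨ ∃ l, D.p j ≠ D.p l ∧ c = D.r j l

/-- A lower bound for `|x - s|` on the circles around `c` with radius between `3 / 8` and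
`1 / 2`. -/
noncomputable def fx (c s : ℤ) : ℝ := if s = c then 3 / 8 else |(c : ℝ) - s| - 1 / 2

/-- A lower bound for the distance of the lines `j` and `l` above these circles. -/
noncomputable def fl (D : Arr) (j l : Fin D.n) (c : ℤ) : ℝ :=
  if D.p j = D.p l then |(D.q j : ℝ) - D.q l| - 1 / 2
  else |(D.p j : ℝ) - D.p l| * fx c (D.r j l)

/-- A lower bound for `|lam * ∏ (x - a i) * ∏ (b j - b l)|` on the circles around `c` with radius
between `3 / 8` and `1 / 2` (the second product is over `l ≠ j`). -/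
noncomputable def mu (D : Arr) (lam : ℤ) (j : Fin D.n) (c : ℤ) : ℝ :=
  |(lam : ℝ)| * (∏ i, fx c (D.a i)) * ∏ l ∈ Finset.univ.erase j, fl D j l c

/-- The logarithm of the distance of the lines `j` and `l` above `c`, or of the difference of their
slopes if they meet above `c`. (`Real.log 0 = 0` is used.) -/
noncomputable def lb (D : Arr) (j l : Fin D.n) (c : ℤ) : ℝ :=
  if D.p j = D.p l then Real.log |(D.q j : ℝ) - D.q l|
  else Real.log |(D.p j : ℝ) - D.p l| + Real.log |(c : ℝ) - D.r j l|

/-- The model of the regulator of `{x - s, y - b l}` along the circle around `c` on the `j`-th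
sheet, divided by `2 * π`. -/
noncomputable def psi (D : Arr) (lam : ℤ) (j : Fin D.n) (c s : ℤ) (l : Fin D.n) : ℝ :=
  if l = j then
    (if s = c then Real.log |(lam : ℝ)| + ∑ i, Real.log |(c : ℝ) - D.a i| + ∑ h, lb D j h c
      else 0) -
    Real.log |(c : ℝ) - s| * ((∑ i, if D.a i = c then 1 else 0) +
      ∑ h, if D.p j ≠ D.p h ∧ D.r j h = c then 1 else 0)
  else
    Real.log |(c : ℝ) - s| * (if D.p j ≠ D.p l ∧ D.r j l = c then 1 else 0) -
      if s = c then lb D j l c else 0

/-- The model of the regulator of the `i`-th symbol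
`{(x - ctr i) / (x - a 0), (y - b (l1 i)) / (y - b (l2 i))}` along the `k`-th loop (the circle
around `ctr k` on the sheet `l1 k`), divided by `2 * π`. -/
noncomputable def A (D : Arr) (lam : ℤ) (i k : Idx D) : ℝ :=
  psi D lam (l1 D k) (ctr D k) (ctr D i) (l1 D i) - psi D lam (l1 D k) (ctr D k) (ctr D i) (l2 D i) -
    psi D lam (l1 D k) (ctr D k) (D.a (i0 D)) (l1 D i) +
    psi D lam (l1 D k) (ctr D k) (D.a (i0 D)) (l2 D i)

/-- `α i` is the symbol with index `e i`. -/
def IsSym {K : Type} [Field K] (D : Arr) (x y : K) (e : Fin D.g ≃ Idx D) (α : Fin D.g → K2 K) :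
    Prop :=
  ∀ i, ∃ u w : Kˣ, (u : K) * (x - (D.a (i0 D) : K)) = x - (ctr D (e i) : K) ∧
    (w : K) * (y - D.b (l2 D (e i)) x) = y - D.b (l1 D (e i)) x ∧ α i = sym u w

/-- The regulators of the `α i` along the loops `γ k` are `2 * π * A` up to an error at most
`68 * n / Λ`, and their determinant has absolute value at least `(2 * log Λ) ^ g`. -/
def RegA {K : Type} [Field K] (D : Arr) (lam : ℤ) (Λ : ℝ) (e : Fin D.g ≃ Idx D)
    (α : Fin D.g → K2 K) (γ : Fin D.g → Loop K) : Prop :=
  (∀ i k, |reg (γ k) (α i) - 2 * Real.pi * A D lam (e i) (e k)| ≤ 68 * D.n / Λ) ∧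
    (2 * Real.log Λ) ^ D.g ≤ |(Matrix.of fun i k => reg (γ k) (α i)).det|

/-- The conclusion for the curve `lam * ∏ (x - a i) * ∏ (y - p j * x - q j) = 1`: it exists over
`ℚ` and over `ℂ`, `ℚ` is algebraically closed in the function field over `ℚ`; there are `D.g`
explicit unramified elements of `symU` which up to torsion span all unramified elements of `symU`,
and `D.g` loops along which their regulators are as in `RegA`; over `ℂ` the genus is `D.g` and, if
no class of parallel lines has more than `m` members, the gonality is `n`. -/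
def ConclA (D : Arr) (lam : ℤ) (Λ : ℝ) : Prop :=
  (∃ (K : Type) (_ : Field K) (_ : Algebra ℚ K) (x y : K), IsCurve ℚ K D lam x y) ∧
  (∃ (K : Type) (_ : Field K) (_ : Algebra ℂ K) (x y : K), IsCurve ℂ K D lam x y) ∧
  (∀ (K : Type) [Field K] [Algebra ℚ K] (x y : K), IsCurve ℚ K D lam x y →
    ConstQ K ∧ ∃ (e : Fin D.g ≃ Idx D) (α : Fin D.g → K2 K) (γ : Fin D.g → Loop K),
      IsSym D x y e α ∧ SpansUnramified D x y α ∧ RegA D lam Λ e α γ) ∧
  (∀ (K : Type) [Field K] [Algebra ℂ K] (x y : K), IsCurve ℂ K D lam x y →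
    HasGenus K D.g ∧ ((∀ j, D.par j ≤ D.m) → HasGonality K x D.n))

end MP743d1e.LA
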