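import Pool.Agent.Lib.MP_743d1e_nt.LA.Defs
import Pool.Agent.Lib.MP_743d1e_nt.W.LINW

/-!
# Exact statements of the modules of block LA (line arrangements, local conditions)

The curve is `lam * ∏ (x - a i) * ∏ (y - b j) = 1`, `b j = p j * x + q j`. `W.Phi D 1 L0 j c s l` is
the exact model of the regulator of `{x - s, y - b l}` along the circle around `c` on the `j`-th
sheet divided by `2 * π` (`L0 = log |lam|`), see `W/Defs.lean`; `W.MODW.val` is its combination for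
a flow `a, b` (`W/MODW.lean`), `W.LINW.mod` the one for a symbol, `W.LINW.fa`, `W.LINW.fb` the flow
of a linear combination of the symbols (`W/LINW.lean`). Here always `R = 1`.
-/

set_option autoImplicit false

namespace MP743d1e.LA

open scoped BigOperators
open MP743d1e.K2Main

/-- A flow on the dual graph of the arrangement: `a k j` is the value at the crossing of the lines
`x = a k` and `j`, `b j l` the value at the crossing of the lines `j` and `l`. -/
structure Flow (D : Arr) (a : Fin D.m → Fin D.n → ℝ) (b : Fin D.n → Fin D.n → ℝ) : Prop where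
  anti : ∀ j l, b l j = -b j l
  par : ∀ j l, D.p j = D.p l → b j l = 0
  f1 : ∀ k, ∑ j, a k j = 0
  f2 : ∀ j, ∑ k, a k j + ∑ l, b j l = 0

/-- The values of the model at the crossings with the vertical lines. -/
noncomputable def VA (D : Arr) (L0 : ℝ) (a : Fin D.m → Fin D.n → ℝ) (b : Fin D.n → Fin D.n → ℝ)
    (k : Fin D.m) (j : Fin D.n) : ℝ := W.MODW.val D 1 L0 a b j (D.a k)

/-- The values of the model at the crossings of the lines of the second kind. -/
noncomputable def VB (D : Arr) (L0 : ℝ) (a : Fin D.m → Fin D.n → ℝ) (b : Fin D.n → Fin D.n → ℝ)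
    (j l : Fin D.n) : ℝ := if D.p j = D.p l then 0 else W.MODW.val D 1 L0 a b j (D.r j l)

/-- The square of the norm of a flow. -/
noncomputable def SS (D : Arr) (a : Fin D.m → Fin D.n → ℝ) (b : Fin D.n → Fin D.n → ℝ) : ℝ :=
  ∑ k, ∑ j, a k j ^ 2 + (1 / 2) * ∑ j, ∑ l, b j l ^ 2

/-- NRM. The lower bound on the circles.

Proof. `‖circ c R θ - s‖ = R` if `s = c`, and `≥ |c - s| - R ≥ |c - s| - 1/2` otherwise, so it is
`≥ fx c s` (and `fx c s ≥ 3/8`). For `l ≠ j`: `b j - b l = q j - q l` if `p j = p l` (a nonzero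
integer, `D.line_inj`), and `b j - b l = (p j - p l) * (x - r j l)` otherwise (`W.GD.sub_b`). -/
def SpecNRM : Prop :=
  ∀ (D : Arr) (lam : ℤ) (j : Fin D.n) (c : ℤ) (R : ℝ), 3 / 8 < R → R < 1 / 2 → ∀ θ : ℝ,
    mu D lam j c ≤ ‖(lam : ℂ) * (∏ i, (circ c R θ - (D.a i : ℂ))) *
      ∏ l ∈ Finset.univ.erase j, (D.b j (circ c R θ) - D.b l (circ c R θ))‖ ∧
    (∀ l, l ≠ j → 3 / 8 ≤ ‖D.b j (circ c R θ) - D.b l (circ c R θ)‖) ∧
    ∀ s : ℤ, R ≤ ‖circ c R θ - (s : ℂ)‖

/-- SHL. The branch `y ≈ b j` of the curve over the circle.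

Proof. As `SHWM.main` in `W/SHW.lean` (which uses `Sheet.exists_root`, `Sheet.root_unique` and the
implicit function theorem; the last item of `ShU` is not needed here), with `ρ = R`,
`r = R / (4 n)`, `ε = 1 / lam`, `β l = b j - b l`, and `K = (4/3) |lam| / Λ`: for `‖u‖ ≤ r` one has
`‖u + β l‖ ≥ ‖β l‖ (1 - 1/(4n))` because `‖β l‖ ≥ 3/8`.. (use `R` replaced by `3/8` for `ρ`), hence
`‖A ∏ (u + β l)‖ ≥ (1 - 1/(4n))^(n-1) ‖A ∏ β l‖ ≥ (3/4) Λ / |lam|` (Bernoulli). So
`‖u‖ ≤ ‖ε‖ K = 4/(3Λ) ≤ r/2`, as `r / 2 = 3 / (64 n)` for `ρ = 3/8` and `Λ ≥ 32 n`. -/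
def SpecSHL : Prop :=
  ∀ (D : Arr) (lam : ℤ) (j : Fin D.n) (c : ℤ) (R Λ : ℝ), 3 / 8 < R → R < 1 / 2 →
    32 * (D.n : ℝ) ≤ Λ → Λ ≤ mu D lam j c → ∃ Y : ℝ → ℂ, ContDiff ℝ 1 Y ∧
      (∀ θ, Y (θ + 2 * Real.pi) = Y θ) ∧
      (∀ θ, (lam : ℂ) * (∏ i, (circ c R θ - (D.a i : ℂ))) *
        (∏ l, (Y θ - D.b l (circ c R θ))) = 1) ∧
      ∀ θ, ‖Y θ - D.b j (circ c R θ)‖ ≤ 4 / (3 * Λ)

/-- RGL. The regulators of the symbols along the circles.

Proof. `R` from a countability argument (`HY/REL.lean`, `Hy.RELM.radius (3/8) (1/2)`: all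
`circ c R θ` transcendental), `Y` from SHL for `j = l1 k`, `c = ctr k`, `γ k` from `SpecEmb`. Write
`X s = x - s` (units, `K2Main.int_ne`), `U l = y - b l` (`K2Main.line_ne`). For `l ≠ j` let
`B l = (b j - b l)(x)`, a constant or `(p j - p l) * X (r j l)`; on the loop
`U l / B l = 1 + (Y - b j)/(b j - b l) = exp (ℓ)` with
`ℓ = Complex.log (1 + (Y - b j)/(b j - b l))`, `‖ℓ‖ ≤ (3/2) (4/(3Λ)) (8/3) = 16/(3Λ)`. So
`reg (sym (X s) (U l)) = reg (sym (X s) (B l)) + err`, where the first term is exactly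
`2 π Phi D 1 (log |lam|) j c s l` by `SpecCIR` (see `REGM.reg_lin`, `REGM.reg_const` in
`HY/REG.lean`) and `|err| ≤ 2 π * 16/(3Λ)` by `SpecLOG`, because `‖X s' / X s‖ ≤ 1` on the circle
(as `REGM.error_bound`). For `l = j` the equation of the curve gives in `K2`
`sym (X s) (U j) = - sym (X s) lam - ∑ i, sym (X s) (X (a i)) - ∑_{l ≠ j} sym (X s) (U l)`, so again
the model is exact, with an error at most `(n - 1) * 2 π * 16/(3Λ)`. A symbol is a combination of
two terms with `l1 i` and two with `l2 i`, and `l1 i ≠ l2 i`, so the total error is at most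
`2 * n * 2 π * 16 / (3Λ) ≤ 68 n / Λ`. -/
def SpecRGL : Prop :=
  ∀ (D : Arr) (lam : ℤ) (K : Type) [Field K] [Algebra ℚ K] (x y : K)
    (hc : IsCurve ℚ K D lam x y) (Λ : ℝ), 32 * (D.n : ℝ) ≤ Λ →
      (∀ k : Idx D, Λ ≤ mu D lam (l1 D k) (ctr D k)) →
        ∃ γ : Idx D → Loop K, ∀ i k, |reg (γ k) (sym (uu hc i) (ww hc i)) -
          2 * Real.pi * W.LINW.mod D 1 (Real.log |(lam : ℝ)|) i k| ≤ 68 * D.n / Λ

/-- LAM. The value of `Lam` at a crossing.

Proof. `mu` is a product of positive factors; `log fx c s ≤ xi 1 c s` and `log fl ≤ bt D 1 j l c`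
for `l ≠ j` (`bt D 1 j j c = 0`), and the factor of the node contributes `log (3/8)` where `Lam`
has `0` (`Real.log 0 = 0`) or `lw D j l`. -/
def SpecLAM : Prop :=
  ∀ (D : Arr) (lam : ℤ) (j : Fin D.n) (c : ℤ) (Λ : ℝ), 0 < Λ → Node D j c →
    Λ ≤ mu D lam j c → Real.log (8 * Λ / 3) ≤ W.Lam D 1 (Real.log |(lam : ℝ)|) j c

/-- MDL. The values of the model form a flow, and explicit formulas.

Proof. The formulas are obtained in the proofs of `MODW.valA` (lines `e1`, `e3`, `e8`) and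
`MODW.valB` (`e1`, `e2`, `hT1'`) (copy these proofs with `R = 1`; they do not use the separation up
to that point). The relations: `W.Phi D R (L0 + (m + n) log R) j c s l = W.Phi D 1 L0 j c s l -
log R * om D j c l + log R * dl c s` (because `xi R c s = xi 1 c s - log R (1 - dl c s)`, and
`bt D R j l c = bt D 1 j l c - log R (1 - [l = j] - ind D j l c)`), hence
`val D R (L0 + (m + n) log R) a b = val D 1 L0 a b` for a flow (by `f1`, `f2`, `anti`); take
`R = 1/4` (`SepT D (4 R)` is `sepT_one D`) and use `valA`, `valB`, `rel1`, `rel2`, `yB_anti`,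
`yB_par`. -/
def SpecMDL : Prop :=
  ∀ (D : Arr) (L0 : ℝ) (a : Fin D.m → Fin D.n → ℝ) (b : Fin D.n → Fin D.n → ℝ), Flow D a b →
    Flow D (VA D L0 a b) (VB D L0 a b) ∧
    (∀ k j, VA D L0 a b k j = a k j * W.Lam D 1 L0 j (D.a k) -
      ∑ i, a i j * W.xi 1 (D.a k) (D.a i) - ∑ l, a k l * W.bt D 1 j l (D.a k) -
      ∑ l, b j l * W.zt D 1 j l (D.a k)) ∧
    ∀ j l, D.p j ≠ D.p l → VB D L0 a b j l =
      b j l * (W.Lam D 1 L0 j (D.r j l) + W.lw D j l) +
      ∑ i, W.xi 1 (D.r j l) (D.a i) * (a i l - a i j) +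
      ∑ h, b l h * W.xi 1 (D.r j l) (D.r l h) - ∑ h, b j h * W.xi 1 (D.r j l) (D.r j h)

/-- ENL. Positivity of the form.

Proof. By the formulas of MDL (and symmetry in `j, l` of the part with `b`)
`∑ a VA + 1/2 ∑ b VB = ∑ a_kj² Lam(j, a k) + 1/2 ∑ b_jl² (Lam(j, r_jl) + lw_jl) - ∑_j E_j - ∑_k F_k`,
where `E_j = ∑_{P, P'} z_P z_P' log |s_P - s_P'|` for the points `s = a k` (`z = a k j`) and
`s = r j l` (`z = b j l`, only `p j ≠ p l` counts) of the line `j`, and
`F_k = ∑_{j, l} a_kj a_kl log |b j (a k) - b l (a k)|` (`bt D 1 j l (a k)` is this logarithm for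
`j ≠ l`). The points of a line are distinct integers (`a_inj`, `cross_a`, `no_triple`, `line_inj`)
and the sums of the `z` are zero (`f1`, `f2`), so `Hy.ENEM.energy` (file `HY/ENE.lean`; apply it to
the subtype of the points with `z ≠ 0`, or of the actual crossings) bounds `E_j` and `F_k` by
`log 2 * ∑ z²`; in total `2 * log 2 * SS`. Finally `lw ≥ 0`. -/
def SpecENL : Prop :=
  ∀ (D : Arr) (L0 ℓ : ℝ) (a : Fin D.m → Fin D.n → ℝ) (b : Fin D.n → Fin D.n → ℝ), Flow D a b →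
    (∀ j c, Node D j c → ℓ ≤ W.Lam D 1 L0 j c) →
      (ℓ - 2 * Real.log 2) * SS D a b ≤
        ∑ k, ∑ j, a k j * VA D L0 a b k j + (1 / 2) * ∑ j, ∑ l, b j l * VB D L0 a b j l

/-- LNL. The determinant.

Proof. Let `ψ v` be the vector with the entries `fa v k j` and `fb v j l / √2` in a Euclidean space,
`‖ψ v‖² = SS`. (1) A flow `(a, b)` equals `(fa v', fb v')` for `v' (inl (k, j)) = a k j`,
`v' (inr (j, l)) = b j l`. (2) `∑ i, v i * mod D 1 L0 i k` is `VA` or `VB` of the flow of `v` at the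
crossing `k` (`LINW.sum_idx`), so by MDL and (1) the vector `v ↦ (∑ i, v i * mod i k)_k` has
`ψ` equal to `(VA, VB)`; ENL and Cauchy-Schwarz: `ψ` of it has norm at least
`(ℓ - 2 log 2) ‖ψ v‖`. (3) `∑ v i² ≤ ‖ψ v‖² ≤ (m + n)² ∑ v i²` (compute `fa v k 0`, `fa v 0 j`,
`fa v 0 0` and use Cauchy-Schwarz: `SS ≤ (1 + (n-1) + 2(m+n-2) + m(n-1)) ∑ v i²`), so an error
matrix with entries at most `η` changes `ψ` by at most `(m + n) g η ‖ψ v‖`. (4) A matrix which
expands the norm `‖ψ ·‖` by `κ > 0` has `κ ^ g ≤ |det|` (volume, as `DETM.det_ge_psi` in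
`HY/DET.lean`). -/
def SpecLNL : Prop :=
  ∀ (D : Arr) (L0 ℓ : ℝ), (∀ j c, Node D j c → ℓ ≤ W.Lam D 1 L0 j c) →
    ∀ (e : Fin D.g ≃ Idx D) (N : Matrix (Fin D.g) (Fin D.g) ℝ) (η : ℝ),
      (∀ i k, |N i k - 2 * Real.pi * W.LINW.mod D 1 L0 (e i) (e k)| ≤ η) →
      0 < 2 * Real.pi * (ℓ - 2 * Real.log 2) - ((D.m : ℝ) + D.n) * D.g * η →
        (2 * Real.pi * (ℓ - 2 * Real.log 2) - ((D.m : ℝ) + D.n) * D.g * η) ^ D.g ≤ |N.det|

/-- CRL. The affine curve is smooth.

Proof. Let `(x0, y0)` be a point of the curve with the two equations. (1) It is real: multiply the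
equations by `Im x0` and `Im y0` and add; the imaginary part of the sum is
`- ∑ i, (Im x0)² / |x0 - a i|² - ∑ l, (Im y0 - p l * Im x0)² / |y0 - b l x0|²`. (2) Let `j` minimize
`|y0 - b j x0|`, and let `c` minimize `|x0 - c|` among the `a i` and the `r j l` (`p j ≠ p l`);
`P = (c, b j c)`. For every line `h` not through `P` the values of its equation at `(x0, y0)` and at
`P` have the same sign (first move vertically to the line `j`, then along it to `P`). (3) Case
`P = j ∩ l`, `δ = |p j - p l|`: let `w = (x1, y1)` be the point with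
`y1 - b j x1 = ± δ/4`, `y1 - b l x1 = ± δ/4` with the same signs as at `(x0, y0)`. For `h` not
through `P`, `|L_h(w)| ≥ |L_h(P)| - |p h - p j|/4 - |p h - p l|/4` (with `p h - p j` replaced by
`1` if `h` is vertical), and `|L_h(P)| = |p h - p j| |c - r j h| = |p h - p l| |c - r l h|`, so
`|L_h(w)| ≥ (f + f')/2 ≥ √(f f')` with the factors `f`, `f'` of `h` in `mu D lam j c` and
`mu D lam l c`, and `L_h(w)` has the sign of `L_h(P)`. So
`|lam| ∏ |L_h(w)| ≥ (δ/6) √(mu D lam j c * mu D lam l c) > 1`. Case `P = (a k, j)`: the same with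
`x1 - a k = ± 1/4`, `y1 - b j x1 = ± 1/4`; here `|L_h(w)| ≥ f` (the factor in `mu D lam j c`), so
`|lam| ∏ |L_h(w)| ≥ mu D lam j c / 6 > 1`. (4) `w` and `(x0, y0)` are on the same side of every
line, so `∏ L_h(w) / L_h(z) ≤ exp (∑ (L_h(w) - L_h(z)) / L_h(z)) = exp 0` by the two equations
(as in `SQLM.real_key`, `HY/SQL.lean`), and `|lam| ∏ |L_h(z)| = 1`: contradiction. -/
def SpecCRL : Prop :=
  ∀ (D : Arr) (lam : ℤ), (∀ j c, Node D j c → 7 ≤ mu D lam j c) → Smooth D lam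

/-- LRG. At least 23 lines.

Proof. `fl D j l c ≥ fx c (r j l)` for `p j ≠ p l`. The integers `c - a i`, `c - r j l`
(`p j ≠ p l`) are distinct, one of them is `0` (factor `3/8`); the `q j - q l` (`l ≠ j`, `p j = p l`)
are distinct and nonzero; in total there are `m + n - 2` nonzero integers in two sets `S1`, `S2` of
distinct integers. As in `HY/LGE.lean` (`LGEM.prod_ge`):
`∏_{d ∈ S} (|d| - 1/2)/6 ≥ ∏_{d = ±1..±6} (|d| - 1/2)/6 ≥ 12/1000000`. So
`mu ≥ (3/8) * 6^(m+n-2) * (12/1000000)² ≥ 2 (m+n)^4` for `m + n ≥ 23`. -/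
def SpecLRG : Prop :=
  ∀ (D : Arr) (lam : ℤ), lam ≠ 0 → 23 ≤ D.m + D.n → ∀ j c, Node D j c →
    2 * ((D.m : ℝ) + D.n) ^ 4 ≤ mu D lam j c

/-- FNL. Finitely many exceptions for given `m` and `n`, up to `x → x + c`, `y → y + p x + q`.

Proof. If `mu D lam j c < C` for a node, all factors being at least `3/8`, every factor (and
`|lam|`) is at most `C * 3^(m+n)`; so `c - a i`, `q j - q l` (`p j = p l`), `p j - p l` and
`c - r j l` (`p j ≠ p l`) are bounded. As `a 0 = 0`, `c` and the `a i` are bounded. As `p 0 = 0`,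
`p j` and then all `p l` are bounded. `q j` is bounded because `q 0 = 0` (if `p j ≠ p 0` then
`q j = - p j * r j 0` by `D.cross`), and `q l = (p j - p l) r j l + q j` is bounded. -/
def SpecFNL : Prop :=
  ∀ (m n : ℕ) (C : ℝ), {z : (Fin m → ℤ) × (Fin n → ℤ) × (Fin n → ℤ) × ℤ |
    (∀ i : Fin m, i.val = 0 → z.1 i = 0) ∧
    (∀ j : Fin n, j.val = 0 → z.2.1 j = 0 ∧ z.2.2.1 j = 0) ∧ z.2.2.2 ≠ 0 ∧
    ∃ D : Arr, D.data = ⟨m, n, z.1, z.2.1, z.2.2.1⟩ ∧
      ∃ j c, Node D j c ∧ mu D z.2.2.2 j c < C}.Finite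

/-- PSI. The two forms of the model.

Proof. Unfold; `W.Phi D 1 (log |lam|) j c s l = psi D lam j c s l` (cases `l = j`, `s = c`). -/
def SpecPSI : Prop :=
  ∀ (D : Arr) (lam : ℤ) (i k : Idx D),
    W.LINW.mod D 1 (Real.log |(lam : ℝ)|) i k = A D lam i k

end MP743d1e.LA
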